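import Pool.Agent.Q85.SG.Conf5
import Pool.Agent.W289.CG.Fin

/-!
# From rational configurations to number fields
-/

set_option autoImplicit false

namespace Pool.Agent.Q85.SG

open Polynomial Finset NumberField

/-- a common denominator -/
theorem denom {ι : Type} [Fintype ι] (q : ι → ℚ) :
    ∃ D : ℕ, 0 < D ∧ ∀ i, ∃ z : ℤ, (z : ℚ) = D * q i := by
  classical
  refine ⟨∏ i, (q i).den, Finset.prod_pos fun i _ => (q i).den_pos, fun i => ?_⟩
  refine ⟨(q i).num * ∏ j ∈ Finset.univ.erase i, ((q j).den : ℤ), ?_⟩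
  rw [← Finset.mul_prod_erase _ _ (Finset.mem_univ i)]
  push_cast
  have h1 : ((q i).den : ℚ) * q i = (q i).num := by
    rw [mul_comm]; exact Rat.mul_den_eq_num (q i)
  linear_combination (-(∏ x ∈ univ.erase i, ((q x).den : ℚ))) * h1

theorem eval_deriv_prod {ι : Type} [DecidableEq ι] (s : Finset ι) (f : ι → ℚ) (β : ℚ)
    (h : ∀ i ∈ s, β - f i ≠ 0) :
    (derivative (∏ i ∈ s, (X - C (f i)))).eval β = (∏ i ∈ s, (β - f i)) * ∑ i ∈ s, (β - f i)⁻¹ := by
  induction s using Finset.induction_on with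
  | empty => simp
  | insert a s ha ih =>
    rw [Finset.prod_insert ha, Finset.prod_insert ha, Finset.sum_insert ha, derivative_mul,
      eval_add, eval_mul, eval_mul, ih fun i hi => h i (Finset.mem_insert_of_mem hi)]
    have h1 := h a (Finset.mem_insert_self a s)
    simp only [derivative_sub, derivative_X, derivative_C, sub_zero, eval_one, one_mul, eval_sub,
      eval_X, eval_C, eval_prod]
    field_simp

theorem good_dat {n N : ℕ} (hG : Good n N) : ∃ (D : W289.CG.Dat n 3) (v₁ v₂ : ℝ), 0 < v₁ ∧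
    v₁ < v₂ ∧ ∀ w : ℝ, v₁ < w → w < v₂ →
      {x : ℝ | ∏ i, (x - (D.a i : ℝ)) = -w}.ncard = N := by
  classical
  obtain ⟨ι, _, ρ, b, c, v₁, v₂, hcard, hinj, hbinj, hc, hval, hsum, hlt, hv1, hv2, hN⟩ := hG
  obtain ⟨D, hD, hz⟩ := denom (Sum.elim ρ b)
  have hDq : (0 : ℚ) < D := by exact_mod_cast hD
  have hDr : (0 : ℝ) < D := by exact_mod_cast hD
  have ha' : ∀ i, ∃ z : ℤ, (z : ℚ) = D * ρ i := fun i => hz (Sum.inl i)
  have hb' : ∀ j, ∃ z : ℤ, (z : ℚ) = D * b j := fun j => hz (Sum.inr j)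
  choose A hA using ha'
  choose B hB using hb'
  let e : Fin n ≃ ι := Fintype.equivOfCardEq (by rw [Fintype.card_fin, hcard])
  let a : Fin n → ℤ := fun i => A (e i)
  have ha : ∀ i, (a i : ℚ) = D * ρ (e i) := fun i => hA (e i)
  have hprod : ∀ (z : ℤ) (y : ℚ), (z : ℚ) = D * y →
      (((W289.CG.pA a).eval z : ℤ) : ℚ) = (D : ℚ) ^ n * ∏ i, (y - ρ i) := by
    intro z y hzy
    unfold W289.CG.pA
    rw [eval_prod]
    simp only [eval_sub, eval_X, eval_C]
    push_cast
    have h1 : ∀ i, (z : ℚ) - (a i : ℚ) = D * (y - ρ (e i)) := by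
      intro i; rw [hzy, ha]; ring
    rw [Finset.prod_congr rfl fun i _ => h1 i, Finset.prod_mul_distrib, Finset.prod_const,
      Finset.card_univ, Fintype.card_fin, Equiv.prod_comp e (fun i => y - ρ i)]
  have hne : ∀ j i, b j - ρ i ≠ 0 := by
    intro j i h0
    have := hval j
    rw [Finset.prod_eq_zero (Finset.mem_univ i) h0] at this
    linarith
  have hder : ∀ j, (((derivative (W289.CG.pA a)).eval (B j) : ℤ) : ℚ) ≠ 0 := by
    intro j
    have h1 : (((derivative (W289.CG.pA a)).eval (B j) : ℤ) : ℚ) =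
        (derivative (∏ i : Fin n, (X - C ((a i : ℤ) : ℚ)))).eval ((B j : ℤ) : ℚ) := by
      have h2 : (∏ i : Fin n, (X - C ((a i : ℤ) : ℚ))) =
          (W289.CG.pA a).map (Int.castRingHom ℚ) := by
        unfold W289.CG.pA
        rw [Polynomial.map_prod]
        refine Finset.prod_congr rfl fun i _ => ?_
        rw [Polynomial.map_sub, map_X, map_C]
        rfl
      rw [h2, derivative_map]
      have h5 : ((B j : ℤ) : ℚ) = Int.castRingHom ℚ (B j) := rfl
      rw [h5, eval_map, eval₂_hom]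
      rfl
    rw [h1, eval_deriv_prod]
    · have h2 : ∀ i, ((B j : ℤ) : ℚ) - (a i : ℚ) = D * (b j - ρ (e i)) := by
        intro i; rw [hB, ha]; ring
      refine mul_ne_zero ?_ ?_
      · rw [Finset.prod_ne_zero_iff]
        intro i _
        rw [h2]
        exact mul_ne_zero hDq.ne' (hne j _)
      · have h3 : ∑ i, (((B j : ℤ) : ℚ) - (a i : ℚ))⁻¹ = (D : ℚ)⁻¹ * ∑ i, (b j - ρ i)⁻¹ := by
          rw [← Equiv.sum_comp e (fun i => (b j - ρ i)⁻¹), Finset.mul_sum]
          refine Finset.sum_congr rfl fun i _ => ?_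
          rw [h2, mul_inv]
        rw [h3]
        exact mul_ne_zero (inv_ne_zero hDq.ne') (hsum j)
    · intro i _
      rw [hB, ha, ← mul_sub]
      exact mul_ne_zero hDq.ne' (hne j _)
  let Da : W289.CG.Dat n 3 :=
    { a := a
      b := B
      c := (W289.CG.pA a).eval (B 0)
      ha := by
        intro i j hij
        apply e.injective
        apply hinj
        have h1 := ha i
        rw [hij, ha j] at h1
        exact (mul_left_cancel₀ hDq.ne' h1).symm
      hb := by
        intro i j hij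
        apply hbinj
        have h1 := hB i
        rw [hij, hB j] at h1
        exact (mul_left_cancel₀ hDq.ne' h1).symm
      hc := by
        have h1 := hprod (B 0) (b 0) (hB 0)
        rw [hval 0] at h1
        have h2 : (0 : ℚ) < (((W289.CG.pA a).eval (B 0) : ℤ) : ℚ) := by
          rw [h1]; positivity
        exact_mod_cast h2
      hab := by
        intro j
        have h1 := hprod (B j) (b j) (hB j)
        have h2 := hprod (B 0) (b 0) (hB 0)
        rw [hval j] at h1
        rw [hval 0, ← h1] at h2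
        exact_mod_cast h2.symm
      hder := by
        intro j h0
        exact hder j (by rw [h0]; simp)
      hlt := by
        intro j
        obtain ⟨i, hi⟩ := hlt j
        refine ⟨e.symm i, ?_⟩
        have h1 := ha (e.symm i)
        rw [Equiv.apply_symm_apply] at h1
        have h2 : ((B j : ℤ) : ℚ) < (a (e.symm i) : ℤ) := by
          rw [h1, hB j]
          exact mul_lt_mul_of_pos_left hi hDq
        exact_mod_cast h2 }
  refine ⟨Da, (D : ℝ) ^ n * v₁, (D : ℝ) ^ n * v₂, by positivity,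
    mul_lt_mul_of_pos_left hv2 (by positivity), ?_⟩
  intro w hw1 hw2
  have hDn : (0 : ℝ) < (D : ℝ) ^ n := by positivity
  have h1 := hN (w / (D : ℝ) ^ n) (by rw [lt_div_iff₀ hDn]; linarith)
    (by rw [div_lt_iff₀ hDn]; linarith)
  rw [← h1]
  have hreal : ∀ x : ℝ, ∏ i, (D * x - (a i : ℝ)) = (D : ℝ) ^ n * ∏ i, (x - (ρ i : ℝ)) := by
    intro x
    have h2 : ∀ i, D * x - (a i : ℝ) = D * (x - (ρ (e i) : ℝ)) := by
      intro i
      have h3 : ((a i : ℤ) : ℝ) = D * (ρ (e i) : ℝ) := by exact_mod_cast ha i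
      rw [h3]; ring
    rw [Finset.prod_congr rfl fun i _ => h2 i, Finset.prod_mul_distrib, Finset.prod_const,
      Finset.card_univ, Fintype.card_fin, Equiv.prod_comp e (fun i => x - (ρ i : ℝ))]
  have himg : {x : ℝ | ∏ i, (x - (Da.a i : ℝ)) = -w} =
      (fun x : ℝ => D * x) '' {x : ℝ | ∏ i, (x - (ρ i : ℝ)) = -(w / (D : ℝ) ^ n)} := by
    ext x
    constructor
    · intro hx
      refine ⟨x / D, ?_, by field_simp⟩
      have h2 := hreal (x / D)
      rw [mul_div_cancel₀ _ hDr.ne'] at h2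
      change ∏ i, (x / D - (ρ i : ℝ)) = -(w / (D : ℝ) ^ n)
      have h3 : ∏ i, (x - (a i : ℝ)) = -w := hx
      rw [h3] at h2
      rw [← neg_div, h2, mul_div_cancel_left₀ _ hDn.ne']
    · rintro ⟨x', hx', rfl⟩
      change ∏ i, (D * x' - (a i : ℝ)) = -w
      have h3 : ∏ i, (x' - (ρ i : ℝ)) = -(w / (D : ℝ) ^ n) := hx'
      rw [hreal, h3]
      field_simp
  rw [himg, Set.ncard_image_of_injective]
  intro x x' hxx
  exact mul_left_cancel₀ hDr.ne' hxx

end Pool.Agent.Q85.SG
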