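import Mathlib

/-!
# Cubic polynomials with three rational roots and prescribed ratios of three values

For all `e₁, e₂, e₃` the cubic polynomial with the roots `x₁, x₂, x₃` below has values at `0, 1, 3`
which are proportional to `1 / e₁, 1 / e₂, 1 / e₃`.
-/

set_option autoImplicit false

namespace Pool.Agent.Q85.SG

theorem solve_identity (e₁ e₂ e₃ : ℚ) (hW : 9 * e₁ + 4 * e₂ + 36 * e₃ ≠ 0)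
    (hZ1 : 3 * e₁ * e₂ - 8 * e₂ * e₃ + 54 * e₁ * e₃ ≠ 0)
    (hZ2 : -(2 * e₁ * e₂) + 24 * e₂ * e₃ + 27 * e₁ * e₃ ≠ 0) (x₁ x₂ x₃ : ℚ)
    (h1 : x₁ = 3 * e₂ * (e₁ - 8 * e₃) / (3 * e₁ * e₂ - 8 * e₂ * e₃ + 54 * e₁ * e₃))
    (h2 : x₂ = 3 * e₃ * (27 * e₁ + 8 * e₂) / (-(2 * e₁ * e₂) + 24 * e₂ * e₃ + 27 * e₁ * e₃))
    (h3 : x₃ = (4 * e₂ + 108 * e₃) / (9 * e₁ + 4 * e₂ + 36 * e₃)) :
    (0 - x₁) * (0 - x₂) * (0 - x₃) * e₁ = (1 - x₁) * (1 - x₂) * (1 - x₃) * e₂ ∧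
    (0 - x₁) * (0 - x₂) * (0 - x₃) * e₁ = (3 - x₁) * (3 - x₂) * (3 - x₃) * e₃ := by
  have a1 : x₁ * (3 * e₁ * e₂ - 8 * e₂ * e₃ + 54 * e₁ * e₃) = 3 * e₂ * (e₁ - 8 * e₃) := by
    rw [h1, div_mul_cancel₀ _ hZ1]
  have a2 : x₂ * (-(2 * e₁ * e₂) + 24 * e₂ * e₃ + 27 * e₁ * e₃) = 3 * e₃ * (27 * e₁ + 8 * e₂) := by
    rw [h2, div_mul_cancel₀ _ hZ2]
  have a3 : x₃ * (9 * e₁ + 4 * e₂ + 36 * e₃) = 4 * e₂ + 108 * e₃ := by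
    rw [h3, div_mul_cancel₀ _ hW]
  have key : ∀ β : ℚ, (β - x₁) * (β - x₂) * (β - x₃) *
      ((3 * e₁ * e₂ - 8 * e₂ * e₃ + 54 * e₁ * e₃) *
        (-(2 * e₁ * e₂) + 24 * e₂ * e₃ + 27 * e₁ * e₃) * (9 * e₁ + 4 * e₂ + 36 * e₃)) =
      (β * (3 * e₁ * e₂ - 8 * e₂ * e₃ + 54 * e₁ * e₃) - 3 * e₂ * (e₁ - 8 * e₃)) *
      (β * (-(2 * e₁ * e₂) + 24 * e₂ * e₃ + 27 * e₁ * e₃) - 3 * e₃ * (27 * e₁ + 8 * e₂)) *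
      (β * (9 * e₁ + 4 * e₂ + 36 * e₃) - (4 * e₂ + 108 * e₃)) := by
    intro β
    rw [← a1, ← a2, ← a3]
    ring
  have hne : (3 * e₁ * e₂ - 8 * e₂ * e₃ + 54 * e₁ * e₃) *
        (-(2 * e₁ * e₂) + 24 * e₂ * e₃ + 27 * e₁ * e₃) * (9 * e₁ + 4 * e₂ + 36 * e₃) ≠ 0 :=
    mul_ne_zero (mul_ne_zero hZ1 hZ2) hW
  constructor
  · apply mul_right_cancel₀ hne
    calc _ = (0 - x₁) * (0 - x₂) * (0 - x₃) * ((3 * e₁ * e₂ - 8 * e₂ * e₃ + 54 * e₁ * e₃) *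
        (-(2 * e₁ * e₂) + 24 * e₂ * e₃ + 27 * e₁ * e₃) * (9 * e₁ + 4 * e₂ + 36 * e₃)) * e₁ := by ring
      _ = (1 - x₁) * (1 - x₂) * (1 - x₃) * ((3 * e₁ * e₂ - 8 * e₂ * e₃ + 54 * e₁ * e₃) *
        (-(2 * e₁ * e₂) + 24 * e₂ * e₃ + 27 * e₁ * e₃) * (9 * e₁ + 4 * e₂ + 36 * e₃)) * e₂ := by
          rw [key, key]; ring
      _ = _ := by ring
  · apply mul_right_cancel₀ hne
    calc _ = (0 - x₁) * (0 - x₂) * (0 - x₃) * ((3 * e₁ * e₂ - 8 * e₂ * e₃ + 54 * e₁ * e₃) *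
        (-(2 * e₁ * e₂) + 24 * e₂ * e₃ + 27 * e₁ * e₃) * (9 * e₁ + 4 * e₂ + 36 * e₃)) * e₁ := by ring
      _ = (3 - x₁) * (3 - x₂) * (3 - x₃) * ((3 * e₁ * e₂ - 8 * e₂ * e₃ + 54 * e₁ * e₃) *
        (-(2 * e₁ * e₂) + 24 * e₂ * e₃ + 27 * e₁ * e₃) * (9 * e₁ + 4 * e₂ + 36 * e₃)) * e₃ := by
          rw [key, key]; ring
      _ = _ := by ring

theorem prod_bd {a b : ℚ} (ha : |a - 1| < 1 / 1000) (hb : |b - 1| < 1 / 1000) :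
    997 / 1000 < a * b ∧ a * b < 1003 / 1000 := by
  rw [abs_lt] at ha hb
  constructor <;> nlinarith [ha.1, ha.2, hb.1, hb.2]

theorem solve (e₁ e₂ e₃ : ℚ) (h1 : |e₁ - 1| < 1 / 1000) (h2 : |e₂ - 1| < 1 / 1000)
    (h3 : |e₃ - 1| < 1 / 1000) :
    ∃ x₁ x₂ x₃ : ℚ, -1 / 2 < x₁ ∧ x₁ < -1 / 3 ∧ 21 / 10 < x₂ ∧ x₂ < 43 / 20 ∧ 57 / 25 < x₃ ∧
      x₃ < 23 / 10 ∧
      (0 - x₁) * (0 - x₂) * (0 - x₃) * e₁ = (1 - x₁) * (1 - x₂) * (1 - x₃) * e₂ ∧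
      (0 - x₁) * (0 - x₂) * (0 - x₃) * e₁ = (3 - x₁) * (3 - x₂) * (3 - x₃) * e₃ := by
  obtain ⟨p1, p2⟩ := prod_bd h1 h2
  obtain ⟨q1, q2⟩ := prod_bd h2 h3
  obtain ⟨r1, r2⟩ := prod_bd h1 h3
  rw [abs_lt] at h1 h2 h3
  have hW : 0 < 9 * e₁ + 4 * e₂ + 36 * e₃ := by linarith
  have hZ1 : 0 < 3 * e₁ * e₂ - 8 * e₂ * e₃ + 54 * e₁ * e₃ := by linarith
  have hZ2 : 0 < -(2 * e₁ * e₂) + 24 * e₂ * e₃ + 27 * e₁ * e₃ := by linarith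
  obtain ⟨k1, k2⟩ := solve_identity e₁ e₂ e₃ hW.ne' hZ1.ne' hZ2.ne' _ _ _ rfl rfl rfl
  refine ⟨_, _, _, ?_, ?_, ?_, ?_, ?_, ?_, k1, k2⟩
  · rw [lt_div_iff₀ hZ1]; linarith
  · rw [div_lt_iff₀ hZ1]; linarith
  · rw [lt_div_iff₀ hZ2]; linarith
  · rw [div_lt_iff₀ hZ2]; linarith
  · rw [lt_div_iff₀ hW]; linarith
  · rw [div_lt_iff₀ hW]; linarith

end Pool.Agent.Q85.SG
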