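import Pool.Agent.Q85.SG.Pairs2
import Pool.Agent.Q85.SG.Solve

/-!
# The configurations
-/

set_option autoImplicit false

namespace Pool.Agent.Q85.SG

open Polynomial Finset Filter Topology

/-- `n` rational points, three further points at which the monic polynomial with these roots has the
same positive value and nonzero derivative, and an interval of values `w` for which the polynomial
takes the value `-w` at exactly `N` real points -/
def Good (n N : ℕ) : Prop :=
  ∃ (ι : Type) (_ : Fintype ι) (ρ : ι → ℚ) (b : Fin 3 → ℚ) (c : ℚ) (v₁ v₂ : ℝ),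
    Fintype.card ι = n ∧ Function.Injective ρ ∧ Function.Injective b ∧ 0 < c ∧
    (∀ j, ∏ i, (b j - ρ i) = c) ∧ (∀ j, ∑ i, (b j - ρ i)⁻¹ ≠ 0) ∧ (∀ j, ∃ i, b j < ρ i) ∧
    0 < v₁ ∧ v₁ < v₂ ∧ ∀ w : ℝ, v₁ < w → w < v₂ →
      {x : ℝ | ∏ i, (x - (ρ i : ℝ)) = -w}.ncard = N

def uq (M i : ℕ) : ℚ := M * (2 * i + 2)

def gq (M : ℕ) (ε : ℚ) (d i : ℕ) : ℚ := if i < d then (M : ℚ) else ε

/-- the factor of the far roots, normalised to be `1` at `0` -/
def eE (M : ℕ) (ε : ℚ) (e d h : ℕ) (x : ℚ) : ℚ :=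
  (1 - x / M) ^ e * ∏ i ∈ range h, ((1 - x / uq M i) * (1 - x / (uq M i + gq M ε d i)))

def εq (M nb h : ℕ) : ℚ := 1 / ((M : ℚ) * (2 * h + 3)) ^ (nb + 2 * h)

theorem uq_ge (M i : ℕ) : (2 : ℚ) * M ≤ uq M i := by
  unfold uq
  have h1 : (0 : ℚ) ≤ i := Nat.cast_nonneg i
  have h2 : (0 : ℚ) ≤ M := Nat.cast_nonneg M
  nlinarith

theorem εq_nonneg (M nb h : ℕ) : 0 ≤ εq M nb h := by unfold εq; positivity

theorem gq_nonneg (M : ℕ) {ε : ℚ} (hε : 0 ≤ ε) (d i : ℕ) : 0 ≤ gq M ε d i := by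
  unfold gq; split_ifs
  · exact Nat.cast_nonneg M
  · exact hε

theorem tendsto_eE (nb e d h : ℕ) (x : ℚ) :
    Tendsto (fun M : ℕ => eE M (εq M nb h) e d h x) atTop (𝓝 1) := by
  have hM : Tendsto (fun M : ℕ => (M : ℚ)) atTop atTop := tendsto_natCast_atTop_atTop
  have h1 : Tendsto (fun M : ℕ => (1 - x / (M : ℚ)) ^ e) atTop (𝓝 ((1 - 0) ^ e)) :=
    (tendsto_const_nhds.sub (tendsto_const_nhds.div_atTop hM)).pow e
  have h2 : ∀ i ∈ range h, Tendsto (fun M : ℕ => (1 - x / uq M i) *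
      (1 - x / (uq M i + gq M (εq M nb h) d i))) atTop (𝓝 ((1 - 0) * (1 - 0))) := by
    intro i _
    have hu : Tendsto (fun M : ℕ => uq M i) atTop atTop := by
      refine tendsto_atTop_mono (fun M => ?_) hM
      have h1 := uq_ge M i
      have h2 : (0 : ℚ) ≤ M := Nat.cast_nonneg M
      linarith
    have hu' : Tendsto (fun M : ℕ => uq M i + gq M (εq M nb h) d i) atTop atTop := by
      refine tendsto_atTop_mono (fun M => ?_) hu
      have := gq_nonneg M (εq_nonneg M nb h) d i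
      linarith
    exact (tendsto_const_nhds.sub (tendsto_const_nhds.div_atTop hu)).mul
      (tendsto_const_nhds.sub (tendsto_const_nhds.div_atTop hu'))
  have h3 := h1.mul (tendsto_finset_prod _ h2)
  simpa [eE] using h3

theorem exists_M (nb e d h K : ℕ) (F : Finset ℚ) :
    ∃ M : ℕ, K ≤ M ∧ ∀ x ∈ F, |eE M (εq M nb h) e d h x - 1| < 1 / 1000 := by
  have h1 : ∀ᶠ M : ℕ in atTop, ∀ x ∈ F, |eE M (εq M nb h) e d h x - 1| < 1 / 1000 := by
    rw [Filter.eventually_all_finset]
    intro x _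
    have h2 := tendsto_eE nb e d h x
    have h3 : Tendsto (fun M : ℕ => |eE M (εq M nb h) e d h x - 1|) atTop (𝓝 |(1 : ℚ) - 1|) :=
      (h2.sub tendsto_const_nhds).abs
    refine h3.eventually (gt_mem_nhds ?_)
    norm_num
  obtain ⟨M, h2, h3⟩ := (h1.and (eventually_ge_atTop K)).exists
  exact ⟨M, h3, h2⟩

/-- the roots -/
def rho (M : ℕ) (ε : ℚ) (e d h : ℕ) (y : Fin 3 → ℚ) : Fin 3 ⊕ (Fin e ⊕ (Fin h ⊕ Fin h)) → ℚ :=
  Sum.elim y (Sum.elim (fun _ => (M : ℚ)) (Sum.elim (fun i => uq M i)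
    (fun i => uq M i + gq M ε d i)))

theorem prod_rho (M : ℕ) (hM : 0 < M) (ε : ℚ) (hε : 0 < ε) (e d h : ℕ) (y : Fin 3 → ℚ) (x : ℚ) :
    ∏ i, (x - rho M ε e d h y i) = ((x - y 0) * (x - y 1) * (x - y 2)) *
      ((-(M : ℚ)) ^ e * ∏ i ∈ range h, (uq M i * (uq M i + gq M ε d i))) * eE M ε e d h x := by
  have hMq : (0 : ℚ) < M := by exact_mod_cast hM
  simp only [Fintype.prod_sum_type, rho, Sum.elim_inl, Sum.elim_inr, Fin.prod_univ_three,
    Finset.prod_const, Finset.card_univ, Fintype.card_fin]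
  rw [Finset.prod_range (fun i => uq M i * (uq M i + gq M ε d i))]
  unfold eE
  rw [Finset.prod_range (fun i => (1 - x / uq M i) * (1 - x / (uq M i + gq M ε d i)))]
  rw [← Finset.prod_mul_distrib]
  have h1 : (x - (M : ℚ)) ^ e = (-(M : ℚ)) ^ e * (1 - x / M) ^ e := by
    rw [← mul_pow]
    congr 1
    field_simp
    ring
  have h2 : ∏ i : Fin h, (x - uq M i) * (x - (uq M i + gq M ε d i)) =
      (∏ i : Fin h, (uq M i * (uq M i + gq M ε d i))) *
        ∏ i : Fin h, ((1 - x / uq M i) * (1 - x / (uq M i + gq M ε d i))) := by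
    rw [← Finset.prod_mul_distrib]
    refine Finset.prod_congr rfl fun i _ => ?_
    have h3 : 0 < uq M i := by have := uq_ge M i; linarith
    have h4 : 0 < uq M i + gq M ε d i := by
      have := gq_nonneg M hε.le d i; linarith
    field_simp
    ring
  rw [h1, h2]
  ring

theorem prod_rho_real (M : ℕ) (ε : ℚ) (e d h : ℕ) (y : Fin 3 → ℚ) (x : ℝ) :
    ∏ i, (x - (rho M ε e d h y i : ℝ)) =
      (((X - C (y 0 : ℝ)) * (X - C (y 1 : ℝ)) * (X - C (y 2 : ℝ)) * (X - C (M : ℝ)) ^ e) *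
        PT (M : ℝ) (ε : ℝ) d h).eval x := by
  simp only [Fintype.prod_sum_type, rho, Sum.elim_inl, Sum.elim_inr, Fin.prod_univ_three,
    Finset.prod_const, Finset.card_univ, Fintype.card_fin, eval_mul, eval_PT, eval_sub, eval_X,
    eval_C, eval_pow]
  unfold TT
  rw [Finset.prod_range (fun i => (x - uu (M : ℝ) i) * (x - (uu (M : ℝ) i + gg (M : ℝ) (ε : ℝ) d i)))]
  rw [← Finset.prod_mul_distrib]
  have h1 : ∀ i : Fin h, ((uq M i : ℚ) : ℝ) = uu M i := by intro i; simp [uq, uu]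
  have h2 : ∀ i : Fin h, ((gq M ε d i : ℚ) : ℝ) = gg M ε d i := by
    intro i; unfold gq gg; split_ifs <;> simp
  have h3 : ∏ i : Fin h, (x - ((uq M i : ℚ) : ℝ)) * (x - ((uq M i + gq M ε d i : ℚ) : ℝ)) =
      ∏ i : Fin h, (x - uu (M : ℝ) i) * (x - (uu (M : ℝ) i + gg (M : ℝ) (ε : ℝ) d i)) := by
    refine Finset.prod_congr rfl fun i _ => ?_
    rw [h1, Rat.cast_add, h1, h2]
  rw [h3]
  push_cast
  ring

theorem rho_inj (M : ℕ) (hM : 4 ≤ M) (ε : ℚ) (hε : 0 < ε) (hε1 : ε ≤ 1) (e d h : ℕ) (he : e ≤ 1)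
    (y : Fin 3 → ℚ) (hy : Function.Injective y) (hy3 : ∀ i, y i < 3) :
    Function.Injective (rho M ε e d h y) := by
  have hMq : (4 : ℚ) ≤ M := by exact_mod_cast hM
  have hg : ∀ i, gq M ε d i ≤ M := by
    intro i; unfold gq; split_ifs
    · exact le_rfl
    · linarith
  have hg0 : ∀ i, 0 < gq M ε d i := by
    intro i; unfold gq; split_ifs
    · linarith
    · exact hε
  have hmono : ∀ i j : ℕ, i < j → uq M i + 2 * M ≤ uq M j := by
    intro i j hij
    have h1 : (i : ℚ) + 1 ≤ j := by exact_mod_cast hij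
    unfold uq
    nlinarith
  unfold rho
  refine hy.sumElim (Function.Injective.sumElim ?_ (Function.Injective.sumElim ?_ ?_ ?_) ?_) ?_
  · intro i j _
    apply Fin.ext
    have := i.2; have := j.2
    omega
  · intro i j hij
    apply Fin.ext
    simp only at hij
    rcases lt_trichotomy (i : ℕ) j with h | h | h
    · have := hmono _ _ h; linarith
    · exact h
    · have := hmono _ _ h; linarith
  · intro i j hij
    apply Fin.ext
    simp only at hij
    rcases lt_trichotomy (i : ℕ) j with h | h | h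
    · have := hmono _ _ h; have := hg i; have := hg0 j; linarith
    · exact h
    · have := hmono _ _ h; have := hg j; have := hg0 i; linarith
  · intro i j hij
    rcases lt_trichotomy (i : ℕ) j with h | h | h
    · have := hmono _ _ h; have := hg0 j; linarith
    · have := hg0 j; rw [h] at hij; linarith
    · have := hmono _ _ h; have := hg j; linarith
  · rintro _ (j | j) hj
    · have := uq_ge M j
      simp only [Sum.elim_inl] at hj
      linarith
    · have := uq_ge M j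
      have := hg0 j
      simp only [Sum.elim_inr] at hj
      linarith
  · rintro i (j | j | j) hj
    · have := hy3 i
      simp only [Sum.elim_inl] at hj
      linarith
    · have := hy3 i
      have := uq_ge M j
      simp only [Sum.elim_inl, Sum.elim_inr] at hj
      linarith
    · have := hy3 i
      have := uq_ge M j
      have := hg0 j
      simp only [Sum.elim_inr] at hj
      linarith

end Pool.Agent.Q85.SG
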