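import Pool.Agent.Q85.SG.Conf

/-!
# The configurations: three cases
-/

set_option autoImplicit false

namespace Pool.Agent.Q85.SG

open Polynomial Finset Filter Topology

theorem inv_bd {lo a hi : ℚ} (h0 : 0 < lo) (h1 : lo < a) (h2 : a < hi) :
    hi⁻¹ < a⁻¹ ∧ a⁻¹ < lo⁻¹ :=
  ⟨inv_strictAnti₀ (h0.trans h1) h2, inv_strictAnti₀ h0 h1⟩

theorem base_sum (x₁ x₂ x₃ : ℚ) (a1 : -1 / 2 < x₁) (a2 : x₁ < -1 / 3) (b1 : 21 / 10 < x₂)
    (b2 : x₂ < 43 / 20) (c1 : 57 / 25 < x₃) (c2 : x₃ < 23 / 10) :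
    1 / 2 ≤ |(0 - x₁)⁻¹ + (0 - x₂)⁻¹ + (0 - x₃)⁻¹| ∧
    1 / 2 ≤ |(1 - x₁)⁻¹ + (1 - x₂)⁻¹ + (1 - x₃)⁻¹| ∧
    1 / 2 ≤ |(3 - x₁)⁻¹ + (3 - x₂)⁻¹ + (3 - x₃)⁻¹| := by
  refine ⟨?_, ?_, ?_⟩
  · obtain ⟨p1, p2⟩ := inv_bd (show (0 : ℚ) < 1 / 3 by norm_num) (show 1 / 3 < 0 - x₁ by linarith)
      (show 0 - x₁ < 1 / 2 by linarith)
    obtain ⟨q1, q2⟩ := inv_bd (show (0 : ℚ) < 21 / 10 by norm_num) b1 b2
    obtain ⟨r1, r2⟩ := inv_bd (show (0 : ℚ) < 57 / 25 by norm_num) c1 c2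
    have hq : (0 - x₂)⁻¹ = -x₂⁻¹ := by rw [zero_sub, inv_neg]
    have hr : (0 - x₃)⁻¹ = -x₃⁻¹ := by rw [zero_sub, inv_neg]
    rw [hq, hr]
    norm_num at p1 p2 q1 q2 r1 r2 ⊢
    refine le_trans ?_ (le_abs_self _)
    linarith
  · obtain ⟨p1, p2⟩ := inv_bd (show (0 : ℚ) < 4 / 3 by norm_num) (show 4 / 3 < 1 - x₁ by linarith)
      (show 1 - x₁ < 3 / 2 by linarith)
    obtain ⟨q1, q2⟩ := inv_bd (show (0 : ℚ) < 11 / 10 by norm_num)
      (show 11 / 10 < x₂ - 1 by linarith) (show x₂ - 1 < 23 / 20 by linarith)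
    obtain ⟨r1, r2⟩ := inv_bd (show (0 : ℚ) < 32 / 25 by norm_num)
      (show 32 / 25 < x₃ - 1 by linarith) (show x₃ - 1 < 13 / 10 by linarith)
    have hq : (1 - x₂)⁻¹ = -(x₂ - 1)⁻¹ := by rw [← inv_neg, neg_sub]
    have hr : (1 - x₃)⁻¹ = -(x₃ - 1)⁻¹ := by rw [← inv_neg, neg_sub]
    rw [hq, hr]
    norm_num at p1 p2 q1 q2 r1 r2 ⊢
    refine le_trans ?_ (neg_le_abs _)
    linarith
  · obtain ⟨p1, p2⟩ := inv_bd (show (0 : ℚ) < 10 / 3 by norm_num)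
      (show 10 / 3 < 3 - x₁ by linarith) (show 3 - x₁ < 7 / 2 by linarith)
    obtain ⟨q1, q2⟩ := inv_bd (show (0 : ℚ) < 17 / 20 by norm_num)
      (show 17 / 20 < 3 - x₂ by linarith) (show 3 - x₂ < 9 / 10 by linarith)
    obtain ⟨r1, r2⟩ := inv_bd (show (0 : ℚ) < 7 / 10 by norm_num)
      (show 7 / 10 < 3 - x₃ by linarith) (show 3 - x₃ < 18 / 25 by linarith)
    norm_num at p1 p2 q1 q2 r1 r2 ⊢
    refine le_trans ?_ (le_abs_self _)
    linarith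

/-- the sum over the far roots is small -/
theorem sum_ne (M : ℕ) (ε : ℚ) (hε : 0 < ε) (e d h : ℕ) (hM : 10 + 4 * (e + 2 * h) ≤ M)
    (y : Fin 3 → ℚ) (x : ℚ) (hx : |x| ≤ 3)
    (hs : 1 / 2 ≤ |(x - y 0)⁻¹ + (x - y 1)⁻¹ + (x - y 2)⁻¹|) :
    ∑ i, (x - rho M ε e d h y i)⁻¹ ≠ 0 := by
  have hMq : (10 : ℚ) + 4 * (e + 2 * h) ≤ M := by exact_mod_cast hM
  have he0 : (0 : ℚ) ≤ e := Nat.cast_nonneg e
  have hh0 : (0 : ℚ) ≤ h := Nat.cast_nonneg h
  rw [Fintype.sum_sum_type]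
  intro h0
  have h1 : ∑ i, (x - rho M ε e d h y (Sum.inl i))⁻¹ =
      (x - y 0)⁻¹ + (x - y 1)⁻¹ + (x - y 2)⁻¹ := by
    simp [rho, Fin.sum_univ_three]
  have h2 : |∑ i, (x - rho M ε e d h y (Sum.inr i))⁻¹| ≤ (e + 2 * h) * (1 / (M - 3)) := by
    calc |∑ i, (x - rho M ε e d h y (Sum.inr i))⁻¹|
        ≤ ∑ i : Fin e ⊕ (Fin h ⊕ Fin h), |(x - rho M ε e d h y (Sum.inr i))⁻¹| :=
          Finset.abs_sum_le_sum_abs _ _
      _ ≤ ∑ i : Fin e ⊕ (Fin h ⊕ Fin h), 1 / ((M : ℚ) - 3) := by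
          refine Finset.sum_le_sum fun i _ => ?_
          have hfar : (M : ℚ) ≤ rho M ε e d h y (Sum.inr i) := by
            rcases i with i | i | i
            · simp [rho]
            · have := uq_ge M i
              simp only [rho, Sum.elim_inl, Sum.elim_inr]
              linarith
            · have := uq_ge M i
              have := gq_nonneg M hε.le d i
              simp only [rho, Sum.elim_inl, Sum.elim_inr]
              linarith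
          rw [abs_inv, one_div]
          refine inv_anti₀ (by linarith) ?_
          rw [abs_le] at hx
          rw [abs_sub_comm]
          exact le_trans (by linarith) (le_abs_self _)
      _ = (e + 2 * h) * (1 / (M - 3)) := by
          rw [Finset.sum_const, Finset.card_univ, nsmul_eq_mul]
          simp only [Fintype.card_sum, Fintype.card_fin]
          push_cast
          ring
  have h3 : ((e : ℚ) + 2 * h) * (1 / (M - 3)) ≤ 1 / 4 := by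
    rw [mul_one_div, div_le_iff₀ (by linarith)]
    linarith
  rw [h1] at h0
  have h4 : (x - y 0)⁻¹ + (x - y 1)⁻¹ + (x - y 2)⁻¹ =
      -∑ i, (x - rho M ε e d h y (Sum.inr i))⁻¹ := by linarith
  rw [h4, abs_neg] at hs
  linarith

theorem TT_ge_one {M ε : ℝ} (hM : 4 ≤ M) (hε : 0 < ε) (d h : ℕ) {x : ℝ} (hx : x ≤ M) :
    1 ≤ TT M ε d h x := by
  have : ∏ i ∈ range h, (1 : ℝ) ≤ TT M ε d h x := by
    refine Finset.prod_le_prod (fun _ _ => zero_le_one) fun i _ => ?_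
    have h1 := uu_ge (by linarith : 0 ≤ M) i
    have h2 := gg_pos (by linarith : 0 < M) hε d i
    nlinarith [mul_le_mul (by linarith : (1 : ℝ) ≤ uu M i - x)
      (by linarith : (1 : ℝ) ≤ (uu M i + gg M ε d i) - x) (by norm_num) (by linarith)]
  simpa using this

theorem TT_big {M ε : ℝ} (hM : 4 ≤ M) (hε : 0 < ε) (d : ℕ) {h : ℕ} (hh : 1 ≤ h) {x : ℝ}
    (hx : x ≤ M) : M ≤ TT M ε d h x := by
  unfold TT
  rw [← Finset.mul_prod_erase _ _ (Finset.mem_range.2 hh)]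
  have h0 := uu_ge (by linarith : 0 ≤ M) 0
  have h0' := gg_pos (by linarith : 0 < M) hε d 0
  have h1 : M ≤ (x - uu M 0) * (x - (uu M 0 + gg M ε d 0)) := by
    nlinarith [mul_le_mul (by linarith : M ≤ uu M 0 - x)
      (by linarith : (1 : ℝ) ≤ (uu M 0 + gg M ε d 0) - x) (by norm_num) (by linarith)]
  have h2 : ∏ i ∈ (range h).erase 0, (1 : ℝ) ≤ ∏ i ∈ (range h).erase 0,
      ((x - uu M i) * (x - (uu M i + gg M ε d i))) := by
    refine Finset.prod_le_prod (fun _ _ => zero_le_one) fun i _ => ?_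
    have h1 := uu_ge (by linarith : 0 ≤ M) i
    have h2 := gg_pos (by linarith : 0 < M) hε d i
    nlinarith [mul_le_mul (by linarith : (1 : ℝ) ≤ uu M i - x)
      (by linarith : (1 : ℝ) ≤ (uu M i + gg M ε d i) - x) (by norm_num) (by linarith)]
  rw [Finset.prod_const_one] at h2
  nlinarith

theorem εq_facts (M nb h : ℕ) (hM : 4 ≤ M) :
    0 < εq M nb h ∧ εq M nb h ≤ 1 ∧
      ((M : ℝ) * (2 * h + 3)) ^ (nb + 2 * h) * ((εq M nb h : ℚ) : ℝ) ≤ 1 := by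
  have hMq : (4 : ℚ) ≤ M := by exact_mod_cast hM
  have hh0 : (0 : ℚ) ≤ h := Nat.cast_nonneg h
  have h1 : (1 : ℚ) ≤ (M : ℚ) * (2 * h + 3) := by nlinarith
  refine ⟨by unfold εq; positivity, ?_, ?_⟩
  · unfold εq
    rw [div_le_one (by positivity)]
    exact one_le_pow₀ h1
  · have h2 : ((M : ℝ) * (2 * h + 3)) ^ (nb + 2 * h) * ((εq M nb h : ℚ) : ℝ) = 1 := by
      have h3 : (0 : ℝ) < ((M : ℝ) * (2 * h + 3)) := by
        have : (0 : ℝ) < M := by exact_mod_cast (by omega : 0 < M)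
        positivity
      unfold εq
      push_cast
      field_simp
    rw [h2]

end Pool.Agent.Q85.SG
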