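import Pool.Agent.Q85.SG.Conf2

/-!
# Odd degrees
-/

set_option autoImplicit false

namespace Pool.Agent.Q85.SG

open Polynomial Finset Filter Topology

/-- the base polynomial -/
noncomputable def BB (a b c M : ℝ) (e : ℕ) : ℝ[X] :=
  (X - C a) * (X - C b) * (X - C c) * (X - C M) ^ e

theorem BB_eval (a b c M : ℝ) (e : ℕ) (x : ℝ) :
    (BB a b c M e).eval x = (x - a) * (x - b) * (x - c) * (x - M) ^ e := by
  simp [BB]

theorem BB_monic (a b c M : ℝ) (e : ℕ) : (BB a b c M e).Monic ∧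
    (BB a b c M e).natDegree = 3 + e := by
  have h1 : ((X - C M) ^ e : ℝ[X]).Monic := (monic_X_sub_C M).pow e
  have h2 : ((X - C a) * (X - C b) * (X - C c) : ℝ[X]).Monic :=
    ((monic_X_sub_C a).mul (monic_X_sub_C b)).mul (monic_X_sub_C c)
  refine ⟨h2.mul h1, ?_⟩
  unfold BB
  rw [h2.natDegree_mul h1, ((monic_X_sub_C a).mul (monic_X_sub_C b)).natDegree_mul
    (monic_X_sub_C c), (monic_X_sub_C a).natDegree_mul (monic_X_sub_C b),
    (monic_X_sub_C M).natDegree_pow]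
  simp

theorem castlt₁ {x : ℚ} (h : -1 / 2 < x) : (-1 / 2 : ℝ) < x := by
  have h1 : ((-1 / 2 : ℚ) : ℝ) < x := Rat.cast_lt.2 h
  push_cast at h1; exact h1

theorem castlt₂ {x : ℚ} (h : x < -1 / 3) : (x : ℝ) < -1 / 3 := by
  have h1 : (x : ℝ) < ((-1 / 3 : ℚ) : ℝ) := Rat.cast_lt.2 h
  push_cast at h1; exact h1

theorem castlt₃ {x : ℚ} (h : 21 / 10 < x) : (21 / 10 : ℝ) < x := by
  have h1 : ((21 / 10 : ℚ) : ℝ) < x := Rat.cast_lt.2 h
  push_cast at h1; exact h1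

theorem castlt₄ {x : ℚ} (h : x < 43 / 20) : (x : ℝ) < 43 / 20 := by
  have h1 : (x : ℝ) < ((43 / 20 : ℚ) : ℝ) := Rat.cast_lt.2 h
  push_cast at h1; exact h1

theorem castlt₅ {x : ℚ} (h : 57 / 25 < x) : (57 / 25 : ℝ) < x := by
  have h1 : ((57 / 25 : ℚ) : ℝ) < x := Rat.cast_lt.2 h
  push_cast at h1; exact h1

theorem castlt₆ {x : ℚ} (h : x < 23 / 10) : (x : ℝ) < 23 / 10 := by
  have h1 : (x : ℝ) < ((23 / 10 : ℚ) : ℝ) := Rat.cast_lt.2 h
  push_cast at h1; exact h1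

/-- odd degree -/
theorem conf0 (h t : ℕ) (ht : t ≤ h) (hh : 1 ≤ h) : Good (3 + 2 * h) (3 + 2 * (h - t)) := by
  set d := h - t with hd
  obtain ⟨M, hMK, hMe⟩ := exists_M 3 0 d h (4000 + 20 * h) {0, 1, 3}
  have hM4 : 4 ≤ M := by omega
  obtain ⟨hε0, hε1, hεR⟩ := εq_facts M 3 h hM4
  set ε := εq M 3 h with hε
  have e0 := hMe 0 (by simp)
  have e1 := hMe 1 (by simp)
  have e3 := hMe 3 (by simp)
  obtain ⟨x₁, x₂, x₃, a1, a2, b1, b2, c1, c2, k1, k2⟩ := solve _ _ _ e0 e1 e3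
  obtain ⟨s0, s1, s3⟩ := base_sum x₁ x₂ x₃ a1 a2 b1 b2 c1 c2
  have hMq : (4000 : ℚ) ≤ M := by exact_mod_cast (by omega : 4000 ≤ M)
  have hMr : (4000 : ℝ) ≤ M := by exact_mod_cast (by omega : 4000 ≤ M)
  let y : Fin 3 → ℚ := ![x₁, x₂, x₃]
  let b : Fin 3 → ℚ := ![0, 1, 3]
  have hE0 : 0 < eE M ε 0 d h 0 := by
    rw [abs_lt] at e0; linarith [e0.1]
  have hfar : 0 < ((-(M : ℚ)) ^ 0 * ∏ i ∈ range h, (uq M i * (uq M i + gq M ε d i))) := by
    rw [pow_zero, one_mul]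
    refine Finset.prod_pos fun i _ => ?_
    have h3 : 0 < uq M i := by have := uq_ge M i; linarith
    have h4 := gq_nonneg M hε0.le d i
    positivity
  have hv0 : 0 < (0 - x₁) * (0 - x₂) * (0 - x₃) := by
    have h1 : 0 < (0 - x₁) := by linarith
    have h2 : (0 - x₂) < 0 := by linarith
    have h3 : (0 - x₃) < 0 := by linarith
    exact mul_pos_of_neg_of_neg (mul_neg_of_pos_of_neg h1 h2) h3
  refine ⟨Fin 3 ⊕ (Fin 0 ⊕ (Fin h ⊕ Fin h)), inferInstance, rho M ε 0 d h y, b,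
    ((0 - x₁) * (0 - x₂) * (0 - x₃)) *
      ((-(M : ℚ)) ^ 0 * ∏ i ∈ range h, (uq M i * (uq M i + gq M ε d i))) * eE M ε 0 d h 0,
    1, 2, ?_, ?_, ?_, mul_pos (mul_pos hv0 hfar) hE0, ?_, ?_, ?_, one_pos, one_lt_two, ?_⟩
  · simp only [Fintype.card_sum, Fintype.card_fin]; omega
  · refine rho_inj M hM4 ε hε0 hε1 0 d h (by omega) y ?_ ?_
    · intro i j hij
      fin_cases i <;> fin_cases j <;> simp [y] at hij ⊢ <;> linarith
    · intro i
      fin_cases i <;> simp [y] <;> linarith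
  · intro i j hij
    fin_cases i <;> fin_cases j <;> simp [b] at hij ⊢
  · intro j
    rw [prod_rho M (by omega) ε hε0]
    fin_cases j
    · simp [y, b]
    · simp only [y, b, Fin.mk_one, Fin.isValue, Matrix.cons_val_zero, Matrix.cons_val_one,
        Matrix.cons_val]
      rw [mul_right_comm, mul_right_comm ((0 - x₁) * (0 - x₂) * (0 - x₃)), k1]
    · simp only [y, b, Fin.reduceFinMk, Fin.isValue, Matrix.cons_val_zero, Matrix.cons_val_one,
        Matrix.cons_val]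
      rw [mul_right_comm, mul_right_comm ((0 - x₁) * (0 - x₂) * (0 - x₃)), k2]
  · intro j
    fin_cases j
    · exact sum_ne M ε hε0 0 d h (by omega) y 0 (by simp) s0
    · exact sum_ne M ε hε0 0 d h (by omega) y 1 (by norm_num) s1
    · exact sum_ne M ε hε0 0 d h (by omega) y 3 (by norm_num) s3
  · intro j
    refine ⟨Sum.inr (Sum.inr (Sum.inl ⟨0, hh⟩)), ?_⟩
    have h1 := uq_ge M 0
    have h2 : b j ≤ 3 := by fin_cases j <;> simp [b]
    simp only [rho, Sum.elim_inl, Sum.elim_inr]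
    linarith
  · intro w hw1 hw2
    have hset : {x : ℝ | ∏ i, (x - (rho M ε 0 d h y i : ℝ)) = -w} =
        {x : ℝ | (BB (x₁ : ℝ) (x₂ : ℝ) (x₃ : ℝ) (M : ℝ) 0 * PT (M : ℝ) (ε : ℝ) d h).eval x = -w} := by
      ext x
      rw [Set.mem_setOf_eq, Set.mem_setOf_eq, prod_rho_real]
      rfl
    rw [hset]
    have a1' : (-1 / 2 : ℝ) < x₁ := castlt₁ a1
    have a2' : (x₁ : ℝ) < -1 / 3 := castlt₂ a2
    have b1' : (21 / 10 : ℝ) < x₂ := castlt₃ b1
    have b2' : (x₂ : ℝ) < 43 / 20 := castlt₄ b2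
    have c1' : (57 / 25 : ℝ) < x₃ := castlt₅ c1
    have c2' : (x₃ : ℝ) < 23 / 10 := castlt₆ c2
    have hεr : (0 : ℝ) < (ε : ℝ) := by exact_mod_cast hε0
    have hεr1 : ((ε : ℚ) : ℝ) ≤ 1 := by exact_mod_cast hε1
    have hh0 : (0 : ℝ) ≤ h := Nat.cast_nonneg h
    have hev : ∀ x : ℝ, (BB (x₁ : ℝ) (x₂ : ℝ) (x₃ : ℝ) (M : ℝ) 0).eval x =
        (x - x₁) * (x - x₂) * (x - x₃) := by
      intro x; rw [BB_eval, pow_zero, mul_one]
    have hA : ∀ x : ℝ, (BB (x₁ : ℝ) (x₂ : ℝ) (x₃ : ℝ) (M : ℝ) 0 * PT (M : ℝ) (ε : ℝ) d h).eval x =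
        (x - x₁) * (x - x₂) * (x - x₃) * TT (M : ℝ) (ε : ℝ) d h x := by
      intro x; rw [eval_mul, hev, eval_PT]
    have hmid : (BB (x₁ : ℝ) (x₂ : ℝ) (x₃ : ℝ) (M : ℝ) 0 * PT (M : ℝ) (ε : ℝ) d h).eval (11 / 5) <
        -w := by
      rw [hA]
      have h1 := TT_big (by linarith : (4 : ℝ) ≤ M) hεr d hh (x := 11 / 5) (by linarith)
      have h2 : (1 / 10 : ℝ) ≤ (11 / 5 - x₁) * (11 / 5 - x₂) := by nlinarith
      have h3 : (11 / 5 - (x₁ : ℝ)) * (11 / 5 - x₂) * (11 / 5 - x₃) ≤ -(1 / 125) := by nlinarith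
      nlinarith
    have hleft : (BB (x₁ : ℝ) (x₂ : ℝ) (x₃ : ℝ) (M : ℝ) 0 * PT (M : ℝ) (ε : ℝ) d h).eval (-(M : ℝ)) <
        -w := by
      rw [hA]
      have h1 := TT_ge_one (by linarith : (4 : ℝ) ≤ M) hεr d h (x := -(M : ℝ)) (by linarith)
      have h2 : (M : ℝ) ≤ (-(M : ℝ) - x₁) * (-(M : ℝ) - x₂) := by nlinarith
      have h3 : (-(M : ℝ) - (x₁ : ℝ)) * (-(M : ℝ) - x₂) * (-(M : ℝ) - x₃) ≤ -(M : ℝ) := by
        nlinarith
      nlinarith
    refine pairs (BB (x₁ : ℝ) (x₂ : ℝ) (x₃ : ℝ) (M : ℝ) 0) 3 3 h d (BB_monic _ _ _ _ _).1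
      (BB_monic _ _ _ _ _).2 (by norm_num) (by omega) M ε w x₃ (by linarith) hεr hεr1 hεR hw1 ?_ ?_
      ?_ ?_ ?_ ?_ ![-(M : ℝ), (x₂ : ℝ), 11 / 5] ![(x₁ : ℝ), 11 / 5, (x₃ : ℝ)] ?_ ?_ ?_ ∅ ?_ ?_ ?_
    · intro _
      have h1 : (4000 : ℝ) * 4000 ≤ (M : ℝ) ^ 2 := by
        rw [sq]; exact mul_le_mul hMr hMr (by norm_num) (by linarith)
      linarith
    · rw [hev]; ring
    · linarith
    · intro x hx
      rw [hev]
      have h1 : 0 ≤ x - x₁ := by linarith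
      have h2 : 0 ≤ x - x₂ := by linarith
      have h3 : 0 ≤ x - x₃ := by linarith
      positivity
    · intro x hx
      rw [hev]
      have h1 : 1 ≤ x - x₁ := by linarith
      have h2 : 1 ≤ x - x₂ := by linarith
      have h3 : 1 ≤ x - x₃ := by linarith
      have h4 : 1 ≤ (x - x₁) * (x - x₂) := by nlinarith
      nlinarith
    · intro x hx hx'
      rw [hev]
      have h0 : x + 3 ≤ M * (2 * h + 3) := by nlinarith
      have h1 : x - x₁ ≤ M * (2 * h + 3) := by linarith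
      have h2 : x - x₂ ≤ M * (2 * h + 3) := by linarith
      have h3 : x - x₃ ≤ M * (2 * h + 3) := by linarith
      have h1' : 0 ≤ x - x₁ := by linarith
      have h2' : 0 ≤ x - x₂ := by linarith
      have h3' : 0 ≤ x - x₃ := by linarith
      have h4 : (x - x₁) * (x - x₂) ≤ (M * (2 * h + 3)) * (M * (2 * h + 3)) :=
        mul_le_mul h1 h2 h2' (by linarith)
      calc (x - x₁) * (x - x₂) * (x - x₃) ≤
          ((M * (2 * h + 3)) * (M * (2 * h + 3))) * (M * (2 * h + 3)) :=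
            mul_le_mul h4 h3 h3' (by nlinarith)
        _ = _ := by ring
    · intro i j hij
      fin_cases i <;> fin_cases j <;> simp at hij ⊢
      · left; linarith
      · left; linarith
      · right; linarith
      · right; linarith
    · intro i
      fin_cases i <;> simp <;> linarith
    · intro i
      fin_cases i
      · exact ivt' _ (by simp; linarith) hleft (by rw [hA]; simp) (by linarith)
      · exact ivt _ (by simp; linarith) (by rw [hA]; simp) hmid (by linarith)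
      · exact ivt' _ (by simp; linarith) hmid (by rw [hA]; simp) (by linarith)
    · intro z hz; simp at hz
    · intro x _ z hz; simp at hz
    · simp

end Pool.Agent.Q85.SG
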