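import Pool.Agent.Q85.SG.Conf3

/-!
# Even degrees
-/

set_option autoImplicit false

namespace Pool.Agent.Q85.SG

open Polynomial Finset Filter Topology

/-- the common part of the two cases of even degree -/
theorem conf_even (h d : ℕ) (K : ℕ) (v₁ v₂ : ℕ → ℝ) (N : ℕ) (hv1 : ∀ M, K ≤ M → 0 < v₁ M)
    (hv2 : ∀ M, K ≤ M → v₁ M < v₂ M)
    (hN : ∀ (M : ℕ) (ε x₁ x₂ x₃ : ℝ), 4000 + 20 * h ≤ M → K ≤ M → 0 < ε → ε ≤ 1 →
      ((M : ℝ) * (2 * h + 3)) ^ (4 + 2 * h) * ε ≤ 1 → -1 / 2 < x₁ → x₁ < -1 / 3 →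
      21 / 10 < x₂ → x₂ < 43 / 20 → 57 / 25 < x₃ → x₃ < 23 / 10 → ∀ w, v₁ M < w → w < v₂ M →
      {x : ℝ | (BB (-x₃) (-x₂) (-x₁) M 1 * PT M ε d h).eval x = -w}.ncard = N) :
    Good (4 + 2 * h) N := by
  obtain ⟨M, hMK, hMe⟩ := exists_M 4 1 d h (4000 + 20 * h + K) {0, -1, -3}
  have hM4 : 4 ≤ M := by omega
  obtain ⟨hε0, hε1, hεR⟩ := εq_facts M 4 h hM4
  set ε := εq M 4 h with hε
  have e0 := hMe 0 (by simp)
  have e1 := hMe (-1) (by simp)
  have e3 := hMe (-3) (by simp)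
  obtain ⟨x₁, x₂, x₃, a1, a2, b1, b2, c1, c2, k1, k2⟩ := solve _ _ _ e0 e1 e3
  obtain ⟨s0, s1, s3⟩ := base_sum x₁ x₂ x₃ a1 a2 b1 b2 c1 c2
  have hMq : (4000 : ℚ) ≤ M := by exact_mod_cast (by omega : 4000 ≤ M)
  let y : Fin 3 → ℚ := ![-x₃, -x₂, -x₁]
  let b : Fin 3 → ℚ := ![0, -1, -3]
  have hE0 : 0 < eE M ε 1 d h 0 := by
    rw [abs_lt] at e0; linarith [e0.1]
  have hP : 0 < ∏ i ∈ range h, (uq M i * (uq M i + gq M ε d i)) := by
    refine Finset.prod_pos fun i _ => ?_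
    have h3 : 0 < uq M i := by have := uq_ge M i; linarith
    have h4 := gq_nonneg M hε0.le d i
    positivity
  have hfar : ((-(M : ℚ)) ^ 1 * ∏ i ∈ range h, (uq M i * (uq M i + gq M ε d i))) < 0 := by
    rw [pow_one]
    exact mul_neg_of_neg_of_pos (by linarith) hP
  have hv0 : (0 + x₃) * (0 + x₂) * (0 + x₁) < 0 := by
    have h1 : (0 + x₁) < 0 := by linarith
    have h2 : 0 < (0 + x₂) := by linarith
    have h3 : 0 < (0 + x₃) := by linarith
    exact mul_neg_of_pos_of_neg (mul_pos h3 h2) h1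
  have sym : ∀ β : ℚ, (-β + x₃) * (-β + x₂) * (-β + x₁) = -((β - x₁) * (β - x₂) * (β - x₃)) := by
    intro β; ring
  have syms : ∀ β : ℚ, (-β - -x₃)⁻¹ + (-β - -x₂)⁻¹ + (-β - -x₁)⁻¹ =
      -((β - x₁)⁻¹ + (β - x₂)⁻¹ + (β - x₃)⁻¹) := by
    intro β
    have h1 : ∀ x : ℚ, (-β - -x)⁻¹ = -(β - x)⁻¹ := by
      intro x
      rw [← inv_neg]
      congr 1
      ring
    rw [h1, h1, h1]
    ring
  refine ⟨Fin 3 ⊕ (Fin 1 ⊕ (Fin h ⊕ Fin h)), inferInstance, rho M ε 1 d h y, b,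
    ((0 + x₃) * (0 + x₂) * (0 + x₁)) *
      ((-(M : ℚ)) ^ 1 * ∏ i ∈ range h, (uq M i * (uq M i + gq M ε d i))) * eE M ε 1 d h 0,
    v₁ M, v₂ M, ?_, ?_, ?_, mul_pos (mul_pos_of_neg_of_neg hv0 hfar) hE0, ?_, ?_, ?_,
    hv1 M (by omega), hv2 M (by omega), ?_⟩
  · simp only [Fintype.card_sum, Fintype.card_fin]; omega
  · refine rho_inj M hM4 ε hε0 hε1 1 d h le_rfl y ?_ ?_
    · intro i j hij
      fin_cases i <;> fin_cases j <;> simp [y] at hij ⊢ <;> linarith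
    · intro i
      fin_cases i <;> simp [y] <;> linarith
  · intro i j hij
    fin_cases i <;> fin_cases j <;> simp [b] at hij ⊢
  · intro j
    rw [prod_rho M (by omega) ε hε0]
    fin_cases j
    · simp [y, b]
    · have h1 := sym 1
      have h0 := sym 0
      rw [neg_zero] at h0
      simp only [y, b, Fin.mk_one, Fin.isValue, Matrix.cons_val_zero, Matrix.cons_val_one,
        Matrix.cons_val, sub_neg_eq_add]
      rw [mul_right_comm, mul_right_comm ((0 + x₃) * (0 + x₂) * (0 + x₁)), h0, h1, neg_mul,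
        neg_mul ((0 - x₁) * (0 - x₂) * (0 - x₃)), k1]
    · have h1 := sym 3
      have h0 := sym 0
      rw [neg_zero] at h0
      simp only [y, b, Fin.reduceFinMk, Fin.isValue, Matrix.cons_val_zero, Matrix.cons_val_one,
        Matrix.cons_val, sub_neg_eq_add]
      rw [mul_right_comm, mul_right_comm ((0 + x₃) * (0 + x₂) * (0 + x₁)), h0, h1, neg_mul,
        neg_mul ((0 - x₁) * (0 - x₂) * (0 - x₃)), k2]
  · intro j
    fin_cases j
    · refine sum_ne M ε hε0 1 d h (by omega) y 0 (by simp) ?_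
      have := syms 0
      rw [neg_zero] at this
      simp only [y, Fin.isValue, Matrix.cons_val_zero, Matrix.cons_val_one, Matrix.cons_val]
      rw [this, abs_neg]
      exact s0
    · refine sum_ne M ε hε0 1 d h (by omega) y (-1) (by norm_num) ?_
      have := syms 1
      simp only [y, Fin.isValue, Matrix.cons_val_zero, Matrix.cons_val_one, Matrix.cons_val]
      rw [this, abs_neg]
      exact s1
    · refine sum_ne M ε hε0 1 d h (by omega) y (-3) (by norm_num) ?_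
      have := syms 3
      simp only [y, Fin.isValue, Matrix.cons_val_zero, Matrix.cons_val_one, Matrix.cons_val]
      rw [this, abs_neg]
      exact s3
  · intro j
    refine ⟨Sum.inr (Sum.inl 0), ?_⟩
    have h2 : b j ≤ 0 := by fin_cases j <;> simp [b]
    simp only [rho, Sum.elim_inl, Sum.elim_inr]
    linarith
  · intro w hw1 hw2
    have hset : {x : ℝ | ∏ i, (x - (rho M ε 1 d h y i : ℝ)) = -w} =
        {x : ℝ | (BB (-(x₃ : ℝ)) (-(x₂ : ℝ)) (-(x₁ : ℝ)) (M : ℝ) 1 *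
          PT (M : ℝ) (ε : ℝ) d h).eval x = -w} := by
      ext x
      rw [Set.mem_setOf_eq, Set.mem_setOf_eq, prod_rho_real]
      simp only [y, Fin.isValue, Matrix.cons_val_zero, Matrix.cons_val_one, Matrix.cons_val,
        Rat.cast_neg]
      rfl
    rw [hset]
    exact hN M ε x₁ x₂ x₃ (by omega) (by omega) (by exact_mod_cast hε0) (by exact_mod_cast hε1)
      hεR (castlt₁ a1) (castlt₂ a2) (castlt₃ b1) (castlt₄ b2) (castlt₅ c1) (castlt₆ c2) w hw1 hw2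

/-- facts on the base polynomial of even degree -/
theorem base4 {M x₁ x₂ x₃ : ℝ} {h : ℕ} (hM : 4000 ≤ M) (a1 : -1 / 2 < x₁) (b1 : 21 / 10 < x₂)
    (c1 : 57 / 25 < x₃) (c2 : x₃ < 23 / 10) (a2 : x₁ < -1 / 3) (b2 : x₂ < 43 / 20) :
    (∀ x, M ≤ x → 0 ≤ (BB (-x₃) (-x₂) (-x₁) M 1).eval x) ∧
    (∀ x, 2 * M ≤ x → 1 ≤ (BB (-x₃) (-x₂) (-x₁) M 1).eval x) ∧
    (∀ x, 2 * M ≤ x → x ≤ M * (2 * h + 1) →
      (BB (-x₃) (-x₂) (-x₁) M 1).eval x ≤ (M * (2 * h + 3)) ^ 4) := by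
  have hh0 : (0 : ℝ) ≤ h := Nat.cast_nonneg h
  have hev : ∀ x : ℝ, (BB (-x₃) (-x₂) (-x₁) M 1).eval x =
      (x + x₃) * (x + x₂) * (x + x₁) * (x - M) := by
    intro x; rw [BB_eval, pow_one]; ring
  refine ⟨fun x hx => ?_, fun x hx => ?_, fun x hx hx' => ?_⟩
  · rw [hev]
    have h1 : 0 ≤ x + x₁ := by linarith
    have h2 : 0 ≤ x + x₂ := by linarith
    have h3 : 0 ≤ x + x₃ := by linarith
    have h4 : 0 ≤ x - M := by linarith
    positivity
  · rw [hev]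
    have h1 : 1 ≤ x + x₁ := by linarith
    have h2 : 1 ≤ x + x₂ := by linarith
    have h3 : 1 ≤ x + x₃ := by linarith
    have h4 : 1 ≤ x - M := by linarith
    have h5 : 1 ≤ (x + x₃) * (x + x₂) := by nlinarith
    have h6 : 1 ≤ (x + x₃) * (x + x₂) * (x + x₁) := by nlinarith
    nlinarith
  · rw [hev]
    have h0 : x + 3 ≤ M * (2 * h + 3) := by nlinarith
    have h1 : x + x₁ ≤ M * (2 * h + 3) := by linarith
    have h2 : x + x₂ ≤ M * (2 * h + 3) := by linarith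
    have h3 : x + x₃ ≤ M * (2 * h + 3) := by linarith
    have h4 : x - M ≤ M * (2 * h + 3) := by linarith
    have h1' : 0 ≤ x + x₁ := by linarith
    have h2' : 0 ≤ x + x₂ := by linarith
    have h3' : 0 ≤ x + x₃ := by linarith
    have h4' : 0 ≤ x - M := by linarith
    have hR0 : 0 ≤ M * (2 * (h : ℝ) + 3) := by positivity
    calc (x + x₃) * (x + x₂) * (x + x₁) * (x - M) ≤
        (M * (2 * h + 3)) * (M * (2 * h + 3)) * (M * (2 * h + 3)) * (M * (2 * h + 3)) := by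
          gcongr
      _ = _ := by ring

theorem conf1 (h t : ℕ) (ht : t ≤ h) : Good (4 + 2 * h) (4 + 2 * (h - t)) := by
  set d := h - t with hd
  refine conf_even h d 0 (fun _ => 1) (fun _ => 2) _ (fun _ _ => one_pos) (fun _ _ => one_lt_two) ?_
  intro M ε x₁ x₂ x₃ hM _ hε hε1 hεR a1 a2 b1 b2 c1 c2 w hw1 hw2
  have hMr : (4000 : ℝ) ≤ M := by exact_mod_cast (by omega : 4000 ≤ M)
  obtain ⟨f1, f2, f3⟩ := base4 (h := h) hMr a1 b1 c1 c2 a2 b2
  have hev : ∀ x : ℝ, (BB (-x₃) (-x₂) (-x₁) (M : ℝ) 1).eval x =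
      (x + x₃) * (x + x₂) * (x + x₁) * (x - M) := by
    intro x; rw [BB_eval, pow_one]; ring
  have hA : ∀ x : ℝ, (BB (-x₃) (-x₂) (-x₁) (M : ℝ) 1 * PT (M : ℝ) ε d h).eval x =
      (x + x₃) * (x + x₂) * (x + x₁) * (x - M) * TT (M : ℝ) ε d h x := by
    intro x; rw [eval_mul, hev, eval_PT]
  have hmid : (BB (-x₃) (-x₂) (-x₁) (M : ℝ) 1 * PT (M : ℝ) ε d h).eval (-11 / 5) < -w := by
    rw [hA]
    have h1 := TT_ge_one (by linarith : (4 : ℝ) ≤ M) hε d h (x := -11 / 5) (by linarith)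
    have h2 : (1 / 250 : ℝ) ≤ (-11 / 5 + x₃) * (11 / 5 - x₂) := by nlinarith
    have h3 : (-11 / 5 + x₃) * (-11 / 5 + x₂) * (-11 / 5 + x₁) =
        (-11 / 5 + x₃) * (11 / 5 - x₂) * (11 / 5 - x₁) := by ring
    have h4 : (1 / 125 : ℝ) ≤ (-11 / 5 + x₃) * (11 / 5 - x₂) * (11 / 5 - x₁) := by nlinarith
    have h5 : (-11 / 5 + x₃) * (-11 / 5 + x₂) * (-11 / 5 + x₁) * (-11 / 5 - M) ≤ -(M / 125) := by
      rw [h3]; nlinarith
    nlinarith
  have hmid2 : (BB (-x₃) (-x₂) (-x₁) (M : ℝ) 1 * PT (M : ℝ) ε d h).eval ((M : ℝ) / 2) < -w := by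
    rw [hA]
    have h1 := TT_ge_one (by linarith : (4 : ℝ) ≤ M) hε d h (x := (M : ℝ) / 2) (by linarith)
    have h2 : (1 : ℝ) ≤ (M / 2 + x₃) * (M / 2 + x₂) := by nlinarith
    have h3 : (1 : ℝ) ≤ (M / 2 + x₃) * (M / 2 + x₂) * (M / 2 + x₁) := by nlinarith
    have h4 : (M / 2 + x₃) * (M / 2 + x₂) * (M / 2 + x₁) * (M / 2 - M) ≤ -(M / 2) := by nlinarith
    nlinarith
  refine pairs (BB (-x₃) (-x₂) (-x₁) (M : ℝ) 1) 4 4 h d (BB_monic _ _ _ _ _).1
    (BB_monic _ _ _ _ _).2 (by norm_num) (by omega) M ε w M (by linarith) hε hε1 hεR hw1 ?_ ?_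
    ?_ f1 f2 f3 ![-x₃, -11 / 5, -x₁, (M : ℝ) / 2] ![-11 / 5, -x₂, (M : ℝ) / 2, (M : ℝ)]
    ?_ ?_ ?_ ∅ ?_ ?_ ?_
  · intro _
    have h1 : (4000 : ℝ) * 4000 ≤ (M : ℝ) ^ 2 := by
      rw [sq]; exact mul_le_mul hMr hMr (by norm_num) (by linarith)
    linarith
  · rw [hev]; ring
  · linarith
  · intro i j hij
    fin_cases i <;> fin_cases j <;> simp at hij ⊢ <;> first | (left; linarith) | (right; linarith)
  · intro i
    fin_cases i <;> simp <;> linarith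
  · intro i
    fin_cases i
    · exact ivt _ (by simp; linarith) (by rw [hA]; simp) hmid (by linarith)
    · exact ivt' _ (by simp; linarith) hmid (by rw [hA]; simp) (by linarith)
    · exact ivt _ (by simp; linarith) (by rw [hA]; simp) hmid2 (by linarith)
    · exact ivt' _ (by simp; linarith) hmid2 (by rw [hA]; simp) (by linarith)
  · intro z hz; simp at hz
  · intro x _ z hz; simp at hz
  · simp

end Pool.Agent.Q85.SG
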