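import Pool.Agent.Q85.SG.Conf4

/-!
# Even degrees, two real solutions
-/

set_option autoImplicit false

namespace Pool.Agent.Q85.SG

open Polynomial Finset Filter Topology

/-- the depth of the shallow gap -/
noncomputable def c1 (M : ℝ) (h : ℕ) : ℝ := 6 * M * ∏ i ∈ range h, (4 * uu M i ^ 2)

theorem c1_ge {M : ℝ} (hM : 1 ≤ M) (h : ℕ) : 6 ≤ c1 M h := by
  unfold c1
  have h1 : ∏ i ∈ range h, (1 : ℝ) ≤ ∏ i ∈ range h, (4 * uu M i ^ 2) := by
    refine Finset.prod_le_prod (fun _ _ => zero_le_one) fun i _ => ?_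
    have := uu_ge (by linarith : 0 ≤ M) i
    nlinarith
  rw [Finset.prod_const_one] at h1
  nlinarith

theorem TT_le_left {M ε : ℝ} (hM : 4 ≤ M) (hε : 0 < ε) (hε1 : ε ≤ 1) (h : ℕ) {x : ℝ} (hx : -3 ≤ x)
    (hx' : x ≤ M) : TT M ε 0 h x ≤ ∏ i ∈ range h, (4 * uu M i ^ 2) := by
  refine Finset.prod_le_prod (fun i _ => ?_) fun i _ => ?_
  · have h1 := uu_ge (by linarith : 0 ≤ M) i
    have h2 := gg_pos (by linarith : 0 < M) hε 0 i
    exact mul_nonneg_of_nonpos_of_nonpos (by linarith) (by linarith)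
  · have h1 := uu_ge (by linarith : 0 ≤ M) i
    have h2 : gg M ε 0 i = ε := by simp [gg]
    rw [h2]
    have h3 : uu M i - x ≤ 2 * uu M i := by linarith
    have h4 : (uu M i + ε) - x ≤ 2 * uu M i := by linarith
    have h5 : 0 ≤ uu M i - x := by linarith
    have h6 : 0 ≤ (uu M i + ε) - x := by linarith
    nlinarith [mul_le_mul h3 h4 h6 (by linarith)]

theorem TT_half {M ε : ℝ} (hM : 4 ≤ M) (hε : 0 < ε) (h : ℕ) :
    ∏ i ∈ range h, (uu M i ^ 2 / 4) ≤ TT M ε 0 h (M / 2) := by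
  refine Finset.prod_le_prod (fun i _ => by positivity) fun i _ => ?_
  have h1 := uu_ge (by linarith : 0 ≤ M) i
  have h2 : gg M ε 0 i = ε := by simp [gg]
  rw [h2]
  have h3 : uu M i / 2 ≤ uu M i - M / 2 := by linarith
  have h4 : uu M i / 2 ≤ (uu M i + ε) - M / 2 := by linarith
  nlinarith [mul_le_mul h3 h4 (by linarith) (by linarith)]

theorem conf2 (h : ℕ) : Good (4 + 2 * h) 2 := by
  refine conf_even h 0 (4000 + 16 ^ h) (fun M => c1 M h) (fun M => 2 * c1 M h) 2 ?_ ?_ ?_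
  · intro M hM
    have h16 : 0 < 16 ^ h := by positivity
    have h1 : (1 : ℝ) ≤ M := by exact_mod_cast (by omega : 1 ≤ M)
    have := c1_ge h1 h
    linarith
  · intro M hM
    have h16 : 0 < 16 ^ h := by positivity
    have h1 : (1 : ℝ) ≤ M := by exact_mod_cast (by omega : 1 ≤ M)
    have := c1_ge h1 h
    linarith
  intro M ε x₁ x₂ x₃ hM hMK hε hε1 hεR a1 a2 b1 b2 c1' c2' w hw1 hw2
  have hMr : (4000 : ℝ) ≤ M := by exact_mod_cast (by omega : 4000 ≤ M)
  have hM16 : (16 : ℝ) ^ h ≤ M := by exact_mod_cast (by omega : 16 ^ h ≤ M)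
  obtain ⟨f1, f2, f3⟩ := base4 (h := h) hMr a1 b1 c1' c2' a2 b2
  have hc6 := c1_ge (by linarith : (1 : ℝ) ≤ M) h
  have hw1 : c1 (M : ℝ) h < w := hw1
  have hw2 : w < 2 * c1 (M : ℝ) h := hw2
  have hev : ∀ x : ℝ, (BB (-x₃) (-x₂) (-x₁) (M : ℝ) 1).eval x =
      (x + x₃) * (x + x₂) * (x + x₁) * (x - M) := by
    intro x; rw [BB_eval, pow_one]; ring
  have hA : ∀ x : ℝ, (BB (-x₃) (-x₂) (-x₁) (M : ℝ) 1 * PT (M : ℝ) ε 0 h).eval x =
      (x + x₃) * (x + x₂) * (x + x₁) * (x - M) * TT (M : ℝ) ε 0 h x := by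
    intro x; rw [eval_mul, hev, eval_PT]
  have hQ0 : 0 < ∏ i ∈ range h, (uu (M : ℝ) i ^ 2 / 4) := by
    refine Finset.prod_pos fun i _ => ?_
    have h1 := uu_ge (by linarith : (0 : ℝ) ≤ M) i
    have : 0 < uu (M : ℝ) i := by linarith
    positivity
  have hQ : ∏ i ∈ range h, (4 * uu (M : ℝ) i ^ 2) =
      16 ^ h * ∏ i ∈ range h, (uu (M : ℝ) i ^ 2 / 4) := by
    rw [← Finset.card_range h, ← Finset.prod_const, Finset.card_range, ← Finset.prod_mul_distrib]
    exact Finset.prod_congr rfl fun i _ => by ring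
  have hmid2 : (BB (-x₃) (-x₂) (-x₁) (M : ℝ) 1 * PT (M : ℝ) ε 0 h).eval ((M : ℝ) / 2) < -w := by
    rw [hA]
    have h1 := TT_half (by linarith : (4 : ℝ) ≤ M) hε h
    have h2 : (M / 4) * (M / 4) ≤ ((M : ℝ) / 2 + x₃) * (M / 2 + x₂) := by nlinarith
    have h3 : (M / 4) * (M / 4) * (M / 4) ≤ ((M : ℝ) / 2 + x₃) * (M / 2 + x₂) * (M / 2 + x₁) :=
      mul_le_mul h2 (by linarith) (by linarith) (by positivity)
    have h4 : (M / 4) * (M / 4) * (M / 4) * (M / 2) ≤
        ((M : ℝ) / 2 + x₃) * (M / 2 + x₂) * (M / 2 + x₁) * (M - M / 2) :=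
      mul_le_mul h3 (by linarith) (by linarith) (h3.trans' (by positivity))
    have h5 : (M / 4) * (M / 4) * (M / 4) * (M / 2) * ∏ i ∈ range h, (uu (M : ℝ) i ^ 2 / 4) ≤
        ((M : ℝ) / 2 + x₃) * (M / 2 + x₂) * (M / 2 + x₁) * (M - M / 2) *
          TT (M : ℝ) ε 0 h (M / 2) :=
      mul_le_mul h4 h1 hQ0.le (h4.trans' (by positivity))
    have h6 : 2 * c1 M h < (M / 4) * (M / 4) * (M / 4) * (M / 2) *
        ∏ i ∈ range h, (uu (M : ℝ) i ^ 2 / 4) := by
      unfold c1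
      rw [hQ]
      have h7 : 2 * (6 * (M : ℝ) * (16 ^ h * ∏ i ∈ range h, (uu (M : ℝ) i ^ 2 / 4))) =
          (12 * (M : ℝ) * 16 ^ h) * ∏ i ∈ range h, (uu (M : ℝ) i ^ 2 / 4) := by ring
      rw [h7]
      refine mul_lt_mul_of_pos_right ?_ hQ0
      have h8 : 12 * (M : ℝ) * 16 ^ h ≤ 12 * M * M := by nlinarith
      have h9 : 12 * (M : ℝ) * M < (M / 4) * (M / 4) * (M / 4) * (M / 2) := by
        have h10 : (4000 : ℝ) * 4000 ≤ M * M :=
          mul_le_mul hMr hMr (by norm_num) (by linarith)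
        nlinarith [mul_pos (by linarith : (0 : ℝ) < M) (by linarith : (0 : ℝ) < M)]
      linarith
    have h7 : ((M : ℝ) / 2 + x₃) * (M / 2 + x₂) * (M / 2 + x₁) * (M / 2 - M) *
        TT (M : ℝ) ε 0 h (M / 2) = -(((M : ℝ) / 2 + x₃) * (M / 2 + x₂) * (M / 2 + x₁) * (M - M / 2) *
          TT (M : ℝ) ε 0 h (M / 2)) := by ring
    rw [h7]
    linarith
  have hlow : ∀ x : ℝ, (BB (-x₃) (-x₂) (-x₁) (M : ℝ) 1 * PT (M : ℝ) ε 0 h).eval x = -w →
      -x₁ < x := by
    intro x hx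
    by_contra hcon
    push Not at hcon
    rw [hA] at hx
    have hT := TT_nonneg_left (by linarith : (0 : ℝ) < M) hε 0 h (x := x) (by linarith)
    have hMx : 0 < M - x := by linarith
    have hb : 0 < (x + x₃) * (x + x₂) * (x + x₁) := by
      by_contra h1
      push Not at h1
      have h2 : 0 ≤ (x + x₃) * (x + x₂) * (x + x₁) * (x - M) :=
        mul_nonneg_of_nonpos_of_nonpos h1 (by linarith)
      have := mul_nonneg h2 hT
      linarith
    have h3 : (x + x₃) * (x + x₂) < 0 := by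
      by_contra h1
      push Not at h1
      have := mul_nonpos_of_nonneg_of_nonpos h1 (by linarith : x + x₁ ≤ 0)
      linarith
    have h4 : 0 < x + x₃ := by
      by_contra h1
      push Not at h1
      have := mul_nonneg_of_nonpos_of_nonpos h1 (by linarith : x + x₂ ≤ 0)
      linarith
    have h5 : x + x₂ < 0 := by
      by_contra h1
      push Not at h1
      have := mul_nonneg h4.le h1
      linarith
    have h6 : (x + x₃) * (-(x + x₂)) ≤ 1 := by nlinarith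
    have h7 : (x + x₃) * (x + x₂) * (x + x₁) ≤ 3 := by
      have : (x + x₃) * (x + x₂) * (x + x₁) = ((x + x₃) * (-(x + x₂))) * (-(x + x₁)) := by ring
      rw [this]
      calc ((x + x₃) * (-(x + x₂))) * (-(x + x₁)) ≤ 1 * 3 :=
            mul_le_mul h6 (by linarith) (by linarith) (by norm_num)
        _ = 3 := by norm_num
    have h8 : (x + x₃) * (x + x₂) * (x + x₁) * (M - x) ≤ 3 * (2 * M) :=
      mul_le_mul h7 (by linarith) hMx.le (by norm_num)
    have h9 := TT_le_left (by linarith : (4 : ℝ) ≤ M) hε hε1 h (x := x) (by linarith) (by linarith)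
    have h10 : (x + x₃) * (x + x₂) * (x + x₁) * (M - x) * TT (M : ℝ) ε 0 h x ≤
        3 * (2 * M) * ∏ i ∈ range h, (4 * uu (M : ℝ) i ^ 2) :=
      mul_le_mul h8 h9 hT (by linarith)
    have h11 : (x + x₃) * (x + x₂) * (x + x₁) * (x - M) * TT (M : ℝ) ε 0 h x =
        -((x + x₃) * (x + x₂) * (x + x₁) * (M - x) * TT (M : ℝ) ε 0 h x) := by ring
    rw [h11] at hx
    unfold c1 at hw1
    nlinarith
  refine (pairs (BB (-x₃) (-x₂) (-x₁) (M : ℝ) 1) 4 2 h 0 (BB_monic _ _ _ _ _).1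
    (BB_monic _ _ _ _ _).2 (by norm_num) (by omega) M ε w M (by linarith) hε hε1 hεR
    (by linarith) ?_ ?_ ?_ f1 f2 f3 ![-x₁, (M : ℝ) / 2] ![(M : ℝ) / 2, (M : ℝ)]
    ?_ ?_ ?_ {-x₃, -x₂} ?_ ?_ ?_).trans (by norm_num)
  · intro h0; omega
  · rw [hev]; ring
  · linarith
  · intro i j hij
    fin_cases i <;> fin_cases j <;> simp at hij ⊢
  · intro i
    fin_cases i <;> simp <;> linarith
  · intro i
    fin_cases i
    · exact ivt _ (by simp; linarith) (by rw [hA]; simp) hmid2 (by linarith)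
    · exact ivt' _ (by simp; linarith) hmid2 (by rw [hA]; simp) (by linarith)
  · intro z hz
    rw [Finset.mem_insert, Finset.mem_singleton] at hz
    rcases hz with rfl | rfl
    · exact ⟨by rw [hev]; ring, by linarith⟩
    · exact ⟨by rw [hev]; ring, by linarith⟩
  · intro x hx z hz
    rw [Finset.mem_insert, Finset.mem_singleton] at hz
    refine ⟨-x₁, by rw [hA]; ring, Or.inr ⟨?_, hlow x hx⟩⟩
    rcases hz with rfl | rfl <;> linarith
  · rw [Finset.card_pair (by intro h; linarith)]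

end Pool.Agent.Q85.SG
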