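import Mathlib

/-!
# Counting the real solutions of `A = -v`
-/

set_option autoImplicit false

namespace Pool.Agent.Q85.SG

open Polynomial

/-- between two points with the same value there is a zero of the derivative -/
theorem rolle (A : ℝ[X]) {x y : ℝ} (h : x < y) (hxy : A.eval x = A.eval y) :
    ∃ z, x < z ∧ z < y ∧ (derivative A).eval z = 0 := by
  obtain ⟨z, hz, h0⟩ := exists_hasDerivAt_eq_zero (f := fun x => A.eval x)
    (f' := fun x => (derivative A).eval x) h A.continuous.continuousOn hxy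
    (fun x _ => A.hasDerivAt x)
  exact ⟨z, hz.1, hz.2, h0⟩

/-- upper bound of the number of solutions of `A = -v` by omitting roots of `A` -/
theorem upper (A : ℝ[X]) (hn1 : 1 ≤ A.natDegree) (v : ℝ) (hv : v ≠ 0) (Z P : Finset ℝ)
    (hZ : ∀ z ∈ Z, A.eval z = 0) (hP : ∀ x ∈ P, A.eval x = -v)
    (hPZ : ∀ x ∈ P, ∀ z ∈ Z, ∃ w, A.eval w = 0 ∧ (x < w ∧ w < z ∨ z < w ∧ w < x)) :
    P.card + Z.card ≤ A.natDegree := by
  classical
  have hdis : Disjoint P Z := by
    rw [Finset.disjoint_left]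
    intro x hx hx'
    have h1 := hP x hx
    rw [hZ x hx'] at h1
    exact hv (by linarith)
  have hd0 : derivative A ≠ 0 := by
    intro h
    have := natDegree_eq_zero_of_derivative_eq_zero h
    omega
  have hmain : ∀ x ∈ P ∪ Z, ∀ y ∈ P ∪ Z, x < y → (∀ z ∈ P ∪ Z, z ∉ Set.Ioo x y) →
      ∃ z ∈ (derivative A).roots.toFinset, x < z ∧ z < y := by
    intro x hx y hy hxy _
    have key : ∃ z, x < z ∧ z < y ∧ (derivative A).eval z = 0 := by
      rcases Finset.mem_union.1 hx with hx | hx <;> rcases Finset.mem_union.1 hy with hy | hy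
      · exact rolle A hxy (by rw [hP x hx, hP y hy])
      · obtain ⟨w, hw, ⟨h1, h2⟩ | ⟨h1, h2⟩⟩ := hPZ x hx y hy
        · obtain ⟨z, h3, h4, h5⟩ := rolle A h2 (by rw [hw, hZ y hy])
          exact ⟨z, by linarith, h4, h5⟩
        · linarith
      · obtain ⟨w, hw, ⟨h1, h2⟩ | ⟨h1, h2⟩⟩ := hPZ y hy x hx
        · linarith
        · obtain ⟨z, h3, h4, h5⟩ := rolle A h1 (by rw [hw, hZ x hx])
          exact ⟨z, h3, by linarith, h5⟩
      · exact rolle A hxy (by rw [hZ x hx, hZ y hy])
    obtain ⟨z, h1, h2, h3⟩ := key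
    refine ⟨z, ?_, h1, h2⟩
    rw [Multiset.mem_toFinset, mem_roots hd0]
    exact h3
  have h1 := Finset.card_le_of_interleaved hmain
  rw [Finset.card_union_of_disjoint hdis] at h1
  have h2 : (derivative A).roots.toFinset.card ≤ A.natDegree - 1 :=
    (Multiset.toFinset_card_le _).trans ((card_roots' _).trans (natDegree_derivative_le A))
  omega

/-- lower bound of the number of elements of a set by disjoint intervals -/
theorem lower {ι : Type} [Fintype ι] (S : Set ℝ) (hS : S.Finite) (l u : ι → ℝ)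
    (hdis : ∀ i j, i ≠ j → u i ≤ l j ∨ u j ≤ l i)
    (h : ∀ i, ∃ x, l i < x ∧ x < u i ∧ x ∈ S) : Fintype.card ι ≤ S.ncard := by
  classical
  choose f h1 h2 h3 using h
  have hinj : Function.Injective f := by
    intro i j hij
    by_contra hne
    rcases hdis i j hne with h | h
    · have := h2 i; have := h1 j; rw [hij] at *; linarith
    · have := h2 j; have := h1 i; rw [hij] at *; linarith
  have h4 : Set.range f ⊆ S := by
    rintro _ ⟨i, rfl⟩
    exact h3 i
  have h5 := Set.ncard_le_ncard h4 hS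
  rwa [Set.ncard_range_of_injective hinj, Nat.card_eq_fintype_card] at h5

/-- the solutions of `A = -v` form a finite set -/
theorem fin_sol (A : ℝ[X]) (hn1 : 1 ≤ A.natDegree) (v : ℝ) : {x : ℝ | A.eval x = -v}.Finite := by
  have h0 : A + C v ≠ 0 := by
    intro h
    have h1 := natDegree_add_C (p := A) (a := v)
    rw [h, natDegree_zero] at h1
    omega
  refine (A + C v).roots.toFinset.finite_toSet.subset ?_
  intro x hx
  simp only [Set.mem_setOf_eq] at hx
  rw [Finset.mem_coe, Multiset.mem_toFinset, mem_roots h0]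
  simp [IsRoot, hx]

/-- a sign change gives a solution -/
theorem ivt (A : ℝ[X]) {v x y : ℝ} (h : x < y) (hx : A.eval x = 0) (hy : A.eval y < -v)
    (hv : 0 < v) : ∃ z, x < z ∧ z < y ∧ A.eval z = -v := by
  have hc : ContinuousOn (fun x => A.eval x) (Set.Icc x y) := A.continuous.continuousOn
  obtain ⟨z, hz, h1⟩ := intermediate_value_Ioo' h.le hc
    (show -v ∈ Set.Ioo (A.eval y) (A.eval x) from ⟨hy, by rw [hx]; linarith⟩)
  exact ⟨z, hz.1, hz.2, h1⟩

theorem ivt' (A : ℝ[X]) {v x y : ℝ} (h : x < y) (hx : A.eval x < -v) (hy : A.eval y = 0)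
    (hv : 0 < v) : ∃ z, x < z ∧ z < y ∧ A.eval z = -v := by
  have hc : ContinuousOn (fun x => A.eval x) (Set.Icc x y) := A.continuous.continuousOn
  obtain ⟨z, hz, h1⟩ := intermediate_value_Ioo h.le hc
    (show -v ∈ Set.Ioo (A.eval x) (A.eval y) from ⟨hx, by rw [hy]; linarith⟩)
  exact ⟨z, hz.1, hz.2, h1⟩

end Pool.Agent.Q85.SG
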