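import Pool.Agent.Q85.SG.ToDat

/-!
# Class groups of large rank in all signatures
-/

set_option autoImplicit false

namespace Pool.Agent.Q85.SG

open Polynomial Finset NumberField

theorem field_of_good {n r : ℕ} (hn : 2 ≤ n) (hr : 2 * r ≤ n) (hG : Good n (n - 2 * r)) (m N : ℕ)
    (hm : 2 ≤ m) :
    ∃ (K : Type) (_ : Field K) (_ : NumberField K), Module.finrank ℚ K = n ∧
      InfinitePlace.nrComplexPlaces K = r ∧ (N : ℤ) < |discr K| ∧
      ∃ f : Multiplicative (Fin (r + 3) → ZMod m) →* ClassGroup (𝓞 K),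
        Function.Injective f := by
  obtain ⟨D, v₁, v₂, hv1, hv2, hN⟩ := good_dat hG
  have hv2' : 0 < v₂ := hv1.trans hv2
  have hc : (0 : ℝ) < D.c := by exact_mod_cast D.hc
  have hm0 : m ≠ 0 := by omega
  set x : ℝ := (1 + D.c / v₂) ^ ((m : ℝ)⁻¹) with hx
  set y : ℝ := (1 + D.c / v₁) ^ ((m : ℝ)⁻¹) with hy
  have hb1 : 1 < 1 + D.c / v₂ := by
    have : 0 < D.c / v₂ := by positivity
    linarith
  have hb2 : 1 + D.c / v₂ < 1 + D.c / v₁ := by
    have := div_lt_div_of_pos_left hc hv1 hv2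
    linarith
  have hminv : (0 : ℝ) < (m : ℝ)⁻¹ := by
    have : (0 : ℝ) < m := by exact_mod_cast (by omega : 0 < m)
    positivity
  have hxm : x ^ m = 1 + D.c / v₂ := Real.rpow_inv_natCast_pow (by linarith) hm0
  have hym : y ^ m = 1 + D.c / v₁ := Real.rpow_inv_natCast_pow (by linarith) hm0
  have hx1 : 1 ≤ x := Real.one_le_rpow hb1.le hminv.le
  have hxy : x < y := Real.rpow_lt_rpow (by linarith) hb2 hminv
  obtain ⟨s, t, K, hK1, hK2, hs, hxs, hys, hfr, hdisc, hreal, hcl⟩ := W289.CG.core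
    (W930.CG.cls W240.CG.grp W125.CG.uni) W64.CG.val W405.CG.loc W290.CG.emb W349.CG.mu
    W349.CG.red W349.CG.WeilT.main W505.CG.root W505.CG.st W505.CG.irr W505.CG.disc W240.CG.pl
    hn (by norm_num : 1 ≤ 3) D m N hm x y hx1 hxy
  have hsR : (0 : ℝ) < s := by exact_mod_cast hs
  have hsm : 0 < (s : ℝ) ^ m := by positivity
  have h1 : (1 + D.c / v₂) * (s : ℝ) ^ m < (t : ℝ) ^ m := by
    rw [← hxm, ← mul_pow]
    exact pow_lt_pow_left₀ hxs (by positivity) hm0
  have h2 : (t : ℝ) ^ m < (1 + D.c / v₁) * (s : ℝ) ^ m := by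
    rw [← hym, ← mul_pow]
    refine pow_lt_pow_left₀ hys ?_ hm0
    have : 0 < x * s := by positivity
    linarith
  have h3 : 0 < (t : ℝ) ^ m - (s : ℝ) ^ m := by
    have : 0 < D.c / v₂ * (s : ℝ) ^ m := by positivity
    nlinarith
  have hw1 : v₁ < (s : ℝ) ^ m * D.c / ((t : ℝ) ^ m - (s : ℝ) ^ m) := by
    rw [lt_div_iff₀ h3]
    have h4 : v₁ * ((1 + D.c / v₁) * (s : ℝ) ^ m) = v₁ * (s : ℝ) ^ m + (s : ℝ) ^ m * D.c := by
      field_simp
    have h5 := mul_lt_mul_of_pos_left h2 hv1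
    rw [h4] at h5
    linarith
  have hw2 : (s : ℝ) ^ m * D.c / ((t : ℝ) ^ m - (s : ℝ) ^ m) < v₂ := by
    rw [div_lt_iff₀ h3]
    have h4 : v₂ * ((1 + D.c / v₂) * (s : ℝ) ^ m) = v₂ * (s : ℝ) ^ m + (s : ℝ) ^ m * D.c := by
      field_simp
    have h5 := mul_lt_mul_of_pos_left h1 hv2'
    rw [h4] at h5
    linarith
  rw [hN _ hw1 hw2] at hreal
  have h8 := InfinitePlace.card_add_two_mul_card_eq_rank K
  have h7 := W289.CG.rank_eq K
  have hcomp : InfinitePlace.nrComplexPlaces K = r := by omega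
  refine ⟨K, hK1, hK2, hfr, hcomp, hdisc, ?_⟩
  apply hcl
  omega

/-- For all `n ≥ 4`, all `r ≤ n / 2` and all `m ≥ 2` there are number fields of degree `n` with
exactly `r` complex places and of arbitrarily large discriminant whose class group contains
`(ℤ/m)^(r+3)`. -/
theorem main (n r m : ℕ) (hn : 4 ≤ n) (hr : 2 * r ≤ n) (hm : 2 ≤ m) (N : ℕ) :
    ∃ (K : Type) (_ : Field K) (_ : NumberField K), Module.finrank ℚ K = n ∧
      InfinitePlace.nrComplexPlaces K = r ∧ (N : ℤ) < |discr K| ∧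
      ∃ f : Multiplicative (Fin (r + 3) → ZMod m) →* ClassGroup (𝓞 K),
        Function.Injective f := by
  by_cases h1 : r = n / 2
  · obtain ⟨⟨K, hK1, hK2, h1', h2, h3, h4⟩, _⟩ :=
      W289.CG.main n 3 (by omega) (by norm_num) (W289.CG.dat3 n hn) m N hm
    rw [h1]
    refine ⟨K, hK1, hK2, h1', ?_, h3, h4⟩
    have h8 := InfinitePlace.card_add_two_mul_card_eq_rank K
    omega
  · rcases Nat.even_or_odd' n with ⟨k, hk | hk⟩
    · -- even degree
      obtain ⟨h, rfl⟩ : ∃ h, k = h + 2 := ⟨k - 2, by omega⟩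
      have hn' : n = 4 + 2 * h := by omega
      by_cases h2 : r = h + 1
      · have hG := conf2 h
        rw [← hn'] at hG
        have : n - 2 * r = 2 := by omega
        rw [← this] at hG
        exact field_of_good (by omega) hr hG m N hm
      · have hG := conf1 h r (by omega)
        rw [← hn'] at hG
        have : n - 2 * r = 4 + 2 * (h - r) := by omega
        rw [← this] at hG
        exact field_of_good (by omega) hr hG m N hm
    · obtain ⟨h, rfl⟩ : ∃ h, k = h + 1 := ⟨k - 1, by omega⟩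
      have hn' : n = 3 + 2 * h := by omega
      have hG := conf0 h r (by omega) (by omega)
      rw [← hn'] at hG
      have : n - 2 * r = 3 + 2 * (h - r) := by omega
      rw [← this] at hG
      exact field_of_good (by omega) hr hG m N hm

end Pool.Agent.Q85.SG
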