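import Pool.Agent.Q85.SG.Count

/-!
# Solutions of `A = -w` for a polynomial with far pairs of roots, wide or narrow
-/

set_option autoImplicit false

namespace Pool.Agent.Q85.SG

open Polynomial Finset

/-- the left end point of the pair number `i` -/
def uu (M : ℝ) (i : ℕ) : ℝ := M * (2 * i + 2)

/-- the width of the pair number `i` -/
noncomputable def gg (M ε : ℝ) (d i : ℕ) : ℝ := if i < d then M else ε

/-- the product over the pairs -/
noncomputable def TT (M ε : ℝ) (d h : ℕ) (x : ℝ) : ℝ :=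
  ∏ i ∈ range h, ((x - uu M i) * (x - (uu M i + gg M ε d i)))

/-- the polynomial of the pairs -/
noncomputable def PT (M ε : ℝ) (d h : ℕ) : ℝ[X] :=
  ∏ i ∈ range h, ((X - C (uu M i)) * (X - C (uu M i + gg M ε d i)))

theorem eval_PT (M ε : ℝ) (d h : ℕ) (x : ℝ) : (PT M ε d h).eval x = TT M ε d h x := by
  simp [PT, TT, eval_prod]

theorem uu_mono {M : ℝ} (hM : 0 ≤ M) {i j : ℕ} (h : i < j) : uu M i + 2 * M ≤ uu M j := by
  have h1 : (i : ℝ) + 1 ≤ j := by exact_mod_cast h
  unfold uu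
  nlinarith

theorem uu_ge {M : ℝ} (hM : 0 ≤ M) (i : ℕ) : 2 * M ≤ uu M i := by
  unfold uu
  have : (0 : ℝ) ≤ i := Nat.cast_nonneg i
  nlinarith

theorem uu_le {M : ℝ} (hM : 0 ≤ M) {i h : ℕ} (hi : i < h) : uu M i ≤ M * (2 * h) := by
  have h1 : (i : ℝ) + 1 ≤ h := by exact_mod_cast hi
  unfold uu
  nlinarith

theorem gg_pos {M ε : ℝ} (hM : 0 < M) (hε : 0 < ε) (d i : ℕ) : 0 < gg M ε d i := by
  unfold gg; split_ifs <;> assumption

theorem gg_le {M ε : ℝ} (hM : ε ≤ M) (d i : ℕ) : gg M ε d i ≤ M := by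
  unfold gg; split_ifs
  · exact le_rfl
  · exact hM

theorem TT_nonneg_left {M ε : ℝ} (hM : 0 < M) (hε : 0 < ε) (d h : ℕ) {x : ℝ} (hx : x ≤ 2 * M) :
    0 ≤ TT M ε d h x := by
  refine Finset.prod_nonneg fun i _ => ?_
  have h1 := uu_ge hM.le i
  have h2 := gg_pos hM hε d i
  exact mul_nonneg_of_nonpos_of_nonpos (by linarith) (by linarith)

theorem natDegree_PT (M ε : ℝ) (d h : ℕ) : (PT M ε d h).natDegree = 2 * h ∧ (PT M ε d h).Monic := by
  have hm : ∀ i ∈ range h, ((X - C (uu M i)) * (X - C (uu M i + gg M ε d i))).Monic :=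
    fun i _ => (monic_X_sub_C _).mul (monic_X_sub_C _)
  refine ⟨?_, monic_prod_of_monic _ _ hm⟩
  unfold PT
  rw [natDegree_prod_of_monic _ _ hm]
  have : ∀ i ∈ range h, ((X - C (uu M i)) * (X - C (uu M i + gg M ε d i))).natDegree = 2 := by
    intro i _
    rw [(monic_X_sub_C _).natDegree_mul (monic_X_sub_C _), natDegree_X_sub_C, natDegree_X_sub_C]
  rw [Finset.sum_congr rfl this]
  simp [mul_comm]

/-- a wide pair: the product is very negative in the middle -/
theorem TT_mid {M ε : ℝ} (hM : 4 ≤ M) (hε : 0 < ε) (hε1 : ε ≤ 1) {d h k : ℕ} (hk : k < d)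
    (hdh : d ≤ h) : TT M ε d h (uu M k + M / 2) ≤ - (M ^ 2 / 4) := by
  unfold TT
  rw [← Finset.mul_prod_erase _ _ (Finset.mem_range.2 (hk.trans_le hdh))]
  have h1 : gg M ε d k = M := if_pos hk
  rw [h1]
  have h2 : (uu M k + M / 2 - uu M k) * (uu M k + M / 2 - (uu M k + M)) = -(M ^ 2 / 4) := by ring
  rw [h2]
  have h3 : (1 : ℝ) ≤ ∏ i ∈ (range h).erase k,
      ((uu M k + M / 2 - uu M i) * (uu M k + M / 2 - (uu M i + gg M ε d i))) := by
    have : ∏ i ∈ (range h).erase k, (1 : ℝ) ≤ ∏ i ∈ (range h).erase k,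
      ((uu M k + M / 2 - uu M i) * (uu M k + M / 2 - (uu M i + gg M ε d i))) := by
      refine Finset.prod_le_prod (fun _ _ => zero_le_one) fun i hi => ?_
      have hne := Finset.ne_of_mem_erase hi
      have hg0 := gg_pos (by linarith : 0 < M) hε d i
      have hg1 := gg_le (by linarith : ε ≤ M) d i
      rcases lt_or_gt_of_ne hne with hlt | hlt
      · have h5 := uu_mono (by linarith : 0 ≤ M) hlt
        nlinarith [mul_le_mul (by linarith : (1 : ℝ) ≤ uu M k + M / 2 - uu M i)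
          (by linarith : (1 : ℝ) ≤ uu M k + M / 2 - (uu M i + gg M ε d i)) (by norm_num)
          (by linarith)]
      · have h5 := uu_mono (by linarith : 0 ≤ M) hlt
        nlinarith [mul_le_mul (by linarith : (1 : ℝ) ≤ uu M i - (uu M k + M / 2))
          (by linarith : (1 : ℝ) ≤ (uu M i + gg M ε d i) - (uu M k + M / 2)) (by norm_num)
          (by linarith)]
    simpa using this
  nlinarith [sq_nonneg M]

/-- to the right of the wide pairs the product is nearly nonnegative -/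
theorem TT_right {M ε : ℝ} (hM : 4 ≤ M) (hε : 0 < ε) (hε1 : ε ≤ 1) {d h : ℕ} {x : ℝ}
    (hx : ∀ i < d, uu M i + M ≤ x) (hneg : TT M ε d h x < 0) :
    2 * M ≤ x ∧ x ≤ M * (2 * h + 1) ∧ |TT M ε d h x| ≤ ε * (M * (2 * h + 3)) ^ (2 * h) := by
  obtain ⟨k, hk, hk0⟩ : ∃ k ∈ range h, (x - uu M k) * (x - (uu M k + gg M ε d k)) < 0 := by
    by_contra hcon
    push Not at hcon
    exact absurd (Finset.prod_nonneg hcon) (not_le.2 hneg)
  have hM0 : 0 < M := by linarith
  have hg0 := gg_pos hM0 hε d k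
  have h1 : uu M k < x := by
    by_contra hcon
    push Not at hcon
    exact absurd (mul_nonneg_of_nonpos_of_nonpos (by linarith : x - uu M k ≤ 0)
      (by linarith : x - (uu M k + gg M ε d k) ≤ 0)) (not_le.2 hk0)
  have h2 : x < uu M k + gg M ε d k := by
    by_contra hcon
    push Not at hcon
    exact absurd (mul_nonneg (by linarith : 0 ≤ x - uu M k)
      (by linarith : 0 ≤ x - (uu M k + gg M ε d k))) (not_le.2 hk0)
  have hkd : ¬ k < d := by
    intro h
    have h3 := hx k h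
    have h4 : gg M ε d k = M := if_pos h
    linarith
  have hg : gg M ε d k = ε := if_neg hkd
  have hk' := Finset.mem_range.1 hk
  have h3 := uu_ge hM0.le k
  have h4 := uu_le hM0.le hk'
  have hh : (0 : ℝ) ≤ h := Nat.cast_nonneg h
  have hR : x ≤ M * (2 * h + 1) := by
    rw [hg] at h2
    nlinarith
  refine ⟨by linarith, hR, ?_⟩
  unfold TT
  rw [← Finset.mul_prod_erase _ _ hk, abs_mul, Finset.abs_prod]
  have h5 : |(x - uu M k) * (x - (uu M k + gg M ε d k))| ≤ ε := by
    rw [abs_of_neg hk0, hg]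
    rw [hg] at h2
    nlinarith [mul_le_mul (by linarith : x - uu M k ≤ ε)
      (by linarith : (uu M k + ε) - x ≤ 1) (by linarith) hε.le]
  have hR1 : (1 : ℝ) ≤ M * (2 * h + 3) := by nlinarith
  have h6 : ∏ i ∈ (range h).erase k, |(x - uu M i) * (x - (uu M i + gg M ε d i))| ≤
      ∏ i ∈ (range h).erase k, (M * (2 * h + 3)) ^ 2 := by
    refine Finset.prod_le_prod (fun _ _ => abs_nonneg _) fun i hi => ?_
    have hi' := Finset.mem_range.1 (Finset.mem_of_mem_erase hi)
    have h7 := uu_ge hM0.le i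
    have h8 := uu_le hM0.le hi'
    have h9 := gg_pos hM0 hε d i
    have h10 := gg_le (by linarith : ε ≤ M) d i
    rw [abs_mul, sq]
    refine mul_le_mul ?_ ?_ (abs_nonneg _) (by linarith)
    · rw [abs_le]; constructor <;> nlinarith
    · rw [abs_le]; constructor <;> nlinarith
  have h7 : ∏ i ∈ (range h).erase k, (M * (2 * (h : ℝ) + 3)) ^ 2 ≤
      (M * (2 * h + 3)) ^ (2 * h) := by
    rw [Finset.prod_const, ← pow_mul]
    refine pow_le_pow_right₀ hR1 ?_
    have := Finset.card_erase_of_mem hk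
    rw [Finset.card_range] at this
    omega
  exact mul_le_mul h5 (h6.trans h7) (Finset.prod_nonneg fun _ _ => abs_nonneg _) hε.le

end Pool.Agent.Q85.SG
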