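import Pool.Agent.Q85.SG.Pairs

/-!
# The number of solutions
-/

set_option autoImplicit false

namespace Pool.Agent.Q85.SG

open Polynomial Finset

theorem uu_inj {M : ℝ} (hM : 0 < M) : Function.Injective (uu M) := by
  intro i j hij
  rcases lt_trichotomy i j with h | h | h
  · have := uu_mono hM.le h; linarith
  · exact h
  · have := uu_mono hM.le h; linarith

/-- the end points of the narrow pairs -/
noncomputable def zt (M ε : ℝ) (d h : ℕ) : Finset ℝ :=
  (Ico d h).image (uu M) ∪ (Ico d h).image (fun i => uu M i + ε)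

theorem card_zt {M ε : ℝ} (hM : 4 ≤ M) (hε : 0 < ε) (hε1 : ε ≤ 1) (d h : ℕ) :
    (zt M ε d h).card = 2 * (h - d) := by
  have hM0 : 0 < M := by linarith
  unfold zt
  rw [Finset.card_union_of_disjoint, Finset.card_image_of_injective _ (uu_inj hM0),
    Finset.card_image_of_injective, Nat.card_Ico]
  · ring
  · intro i j hij
    exact uu_inj hM0 (by simpa using hij)
  · rw [Finset.disjoint_left]
    intro x hx hx'
    obtain ⟨i, _, rfl⟩ := Finset.mem_image.1 hx
    obtain ⟨j, _, hj⟩ := Finset.mem_image.1 hx'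
    have hj' : uu M j + ε = uu M i := hj
    rcases lt_trichotomy i j with h | h | h
    · have := uu_mono hM0.le h; linarith
    · subst h; linarith
    · have := uu_mono hM0.le h; linarith

theorem zt_root {M ε : ℝ} {d h : ℕ} {z : ℝ} (hz : z ∈ zt M ε d h) :
    TT M ε d h z = 0 ∧ ∃ i, d ≤ i ∧ i < h ∧ (z = uu M i ∨ z = uu M i + ε) := by
  unfold zt at hz
  rcases Finset.mem_union.1 hz with hz | hz
  · obtain ⟨i, hi, rfl⟩ := Finset.mem_image.1 hz
    rw [Finset.mem_Ico] at hi
    refine ⟨?_, i, hi.1, hi.2, Or.inl rfl⟩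
    unfold TT
    exact Finset.prod_eq_zero (Finset.mem_range.2 hi.2) (by simp)
  · obtain ⟨i, hi, rfl⟩ := Finset.mem_image.1 hz
    rw [Finset.mem_Ico] at hi
    refine ⟨?_, i, hi.1, hi.2, Or.inr rfl⟩
    unfold TT
    refine Finset.prod_eq_zero (Finset.mem_range.2 hi.2) ?_
    have : gg M ε d i = ε := if_neg (not_lt.2 hi.1)
    simp [this]

theorem pairs (B : ℝ[X]) (nb k h d : ℕ) (hB : B.Monic) (hnb : B.natDegree = nb) (hnb1 : 1 ≤ nb)
    (hdh : d ≤ h) (M ε w τ : ℝ) (hM : 4 ≤ M) (hε : 0 < ε) (hε1 : ε ≤ 1)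
    (hεR : (M * (2 * h + 3)) ^ (nb + 2 * h) * ε ≤ 1) (hw : 1 < w) (hw2 : 0 < d → w < M ^ 2 / 4)
    (hτ : B.eval τ = 0) (hτM : τ < 2 * M) (hB0 : ∀ x, τ ≤ x → 0 ≤ B.eval x)
    (hB1 : ∀ x, 2 * M ≤ x → 1 ≤ B.eval x)
    (hB2 : ∀ x, 2 * M ≤ x → x ≤ M * (2 * h + 1) → B.eval x ≤ (M * (2 * h + 3)) ^ nb)
    (l r : Fin k → ℝ) (hlr : ∀ i j, i ≠ j → r i ≤ l j ∨ r j ≤ l i) (hr : ∀ i, r i ≤ 2 * M)
    (hsol : ∀ i, ∃ x, l i < x ∧ x < r i ∧ (B * PT M ε d h).eval x = -w)
    (ZB : Finset ℝ) (hZB : ∀ z ∈ ZB, B.eval z = 0 ∧ z < 2 * M)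
    (hZB' : ∀ x, (B * PT M ε d h).eval x = -w → ∀ z ∈ ZB, ∃ w', (B * PT M ε d h).eval w' = 0 ∧
      (x < w' ∧ w' < z ∨ z < w' ∧ w' < x))
    (hk : k + ZB.card = nb) :
    {x : ℝ | (B * PT M ε d h).eval x = -w}.ncard = k + 2 * d := by
  have hM0 : 0 < M := by linarith
  have hεM : ε ≤ M := by linarith
  have hA : ∀ x, (B * PT M ε d h).eval x = B.eval x * TT M ε d h x := by
    intro x; rw [eval_mul, eval_PT]
  have hdeg : (B * PT M ε d h).natDegree = nb + 2 * h := by
    rw [hB.natDegree_mul (natDegree_PT M ε d h).2, hnb, (natDegree_PT M ε d h).1]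
  have hfin : {x : ℝ | (B * PT M ε d h).eval x = -w}.Finite := fin_sol _ (by omega) w
  have hww : 0 < w := by linarith
  have hh : (0 : ℝ) ≤ h := Nat.cast_nonneg h
  have hR1 : (1 : ℝ) ≤ M * (2 * h + 3) := by nlinarith
  -- the last root before the narrow pairs
  obtain ⟨ω, hω0, hωτ, hωd, hωz⟩ : ∃ ω : ℝ, (B * PT M ε d h).eval ω = 0 ∧ τ ≤ ω ∧
      (∀ i < d, uu M i + M ≤ ω) ∧ ∀ i, d ≤ i → ω < uu M i := by
    rcases Nat.eq_zero_or_pos d with hd | hd
    · subst hd
      refine ⟨τ, by rw [hA, hτ, zero_mul], le_rfl, fun i hi => absurd hi (by omega), fun i _ => ?_⟩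
      have := uu_ge hM0.le i
      linarith
    · refine ⟨uu M (d - 1) + M, ?_, ?_, ?_, ?_⟩
      · rw [hA]
        have : TT M ε d h (uu M (d - 1) + M) = 0 := by
          unfold TT
          refine Finset.prod_eq_zero (Finset.mem_range.2 (by omega : d - 1 < h)) ?_
          have : gg M ε d (d - 1) = M := if_pos (by omega)
          simp [this]
        rw [this, mul_zero]
      · have := uu_ge hM0.le (d - 1)
        linarith
      · intro i hi
        rcases Nat.lt_or_ge i (d - 1) with h1 | h1
        · have := uu_mono hM0.le h1; linarith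
        · have : i = d - 1 := by omega
          rw [this]
      · intro i hi
        have h1 : d - 1 < i := by omega
        have := uu_mono hM0.le h1; linarith
  have hlast : ∀ x, (B * PT M ε d h).eval x = -w → x < ω := by
    intro x hx
    by_contra hcon
    push Not at hcon
    rw [hA] at hx
    have h1 := hB0 x (hωτ.trans hcon)
    have h2 : TT M ε d h x < 0 := by
      by_contra h3
      push Not at h3
      have := mul_nonneg h1 h3
      linarith
    obtain ⟨h3, h4, h5⟩ := TT_right hM hε hε1 (fun i hi => (hωd i hi).trans hcon) h2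
    have h6 := hB2 x h3 h4
    have h7 : B.eval x * |TT M ε d h x| ≤
        (M * (2 * h + 3)) ^ nb * (ε * (M * (2 * h + 3)) ^ (2 * h)) :=
      mul_le_mul h6 h5 (abs_nonneg _) (by positivity)
    have h8 : (M * (2 * (h : ℝ) + 3)) ^ nb * (ε * (M * (2 * h + 3)) ^ (2 * h)) =
        (M * (2 * h + 3)) ^ (nb + 2 * h) * ε := by
      rw [pow_add]; ring
    rw [h8, abs_of_neg h2] at h7
    linarith
  -- upper bound
  have hup : {x : ℝ | (B * PT M ε d h).eval x = -w}.ncard ≤ k + 2 * d := by
    have h1 := upper (B * PT M ε d h) (by omega) w hww.ne' (ZB ∪ zt M ε d h) hfin.toFinset ?_ ?_ ?_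
    · have hdis : Disjoint ZB (zt M ε d h) := by
        rw [Finset.disjoint_left]
        intro z hz hz'
        obtain ⟨_, i, _, _, h2⟩ := zt_root hz'
        have h3 := (hZB z hz).2
        have h4 := uu_ge hM0.le i
        rcases h2 with h2 | h2 <;> linarith
      rw [Finset.card_union_of_disjoint hdis, card_zt hM hε hε1, hdeg,
        ← Set.ncard_eq_toFinset_card _ hfin] at h1
      omega
    · intro z hz
      rw [hA]
      rcases Finset.mem_union.1 hz with hz | hz
      · rw [(hZB z hz).1, zero_mul]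
      · rw [(zt_root hz).1, mul_zero]
    · intro x hx
      simpa using hx
    · intro x hx z hz
      have hx' : (B * PT M ε d h).eval x = -w := by simpa using hx
      rcases Finset.mem_union.1 hz with hz | hz
      · exact hZB' x hx' z hz
      · obtain ⟨_, i, hi, _, h2⟩ := zt_root hz
        have h3 := hωz i hi
        refine ⟨ω, hω0, Or.inl ⟨hlast x hx', ?_⟩⟩
        rcases h2 with h2 | h2 <;> linarith
  -- lower bound
  have hlow : k + 2 * d ≤ {x : ℝ | (B * PT M ε d h).eval x = -w}.ncard := by
    have hmid : ∀ i < d, (B * PT M ε d h).eval (uu M i + M / 2) < -w := by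
      intro i hi
      rw [hA]
      have h1 := TT_mid hM hε hε1 hi hdh
      have h2 := hB1 (uu M i + M / 2) (by have := uu_ge hM0.le i; linarith)
      have h3 := hw2 (by omega)
      nlinarith
    let l' : Fin k ⊕ (Fin d ⊕ Fin d) → ℝ := Sum.elim l (Sum.elim (fun i => uu M i)
      (fun i => uu M i + M / 2))
    let r' : Fin k ⊕ (Fin d ⊕ Fin d) → ℝ := Sum.elim r (Sum.elim (fun i => uu M i + M / 2)
      (fun i => uu M i + M))
    have h1 := lower {x : ℝ | (B * PT M ε d h).eval x = -w} hfin l' r' ?_ ?_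
    · simp only [Fintype.card_sum, Fintype.card_fin] at h1
      omega
    · have hbp : ∀ (i : Fin k) (j : ℕ), r i ≤ uu M j := fun i j =>
        (hr i).trans (uu_ge hM0.le j)
      rintro (i | i | i) (j | j | j) hij
      · exact hlr i j (fun h => hij (by rw [h]))
      · exact Or.inl (hbp i j)
      · left; have := hbp i j; simp only [l', r', Sum.elim_inl, Sum.elim_inr]; linarith
      · exact Or.inr (hbp j i)
      · have hne : (i : ℕ) ≠ j := fun h => hij (by rw [Fin.ext h])
        simp only [l', r', Sum.elim_inl, Sum.elim_inr]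
        rcases lt_or_gt_of_ne hne with h | h
        · left; have := uu_mono hM0.le h; linarith
        · right; have := uu_mono hM0.le h; linarith
      · simp only [l', r', Sum.elim_inl, Sum.elim_inr]
        rcases lt_trichotomy (i : ℕ) j with h | h | h
        · left; have := uu_mono hM0.le h; linarith
        · left; rw [h]
        · right; have := uu_mono hM0.le h; linarith
      · right; have := hbp j i; simp only [l', r', Sum.elim_inl, Sum.elim_inr]; linarith
      · simp only [l', r', Sum.elim_inl, Sum.elim_inr]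
        rcases lt_trichotomy (i : ℕ) j with h | h | h
        · left; have := uu_mono hM0.le h; linarith
        · right; rw [h]
        · right; have := uu_mono hM0.le h; linarith
      · have hne : (i : ℕ) ≠ j := fun h => hij (by rw [Fin.ext h])
        simp only [l', r', Sum.elim_inl, Sum.elim_inr]
        rcases lt_or_gt_of_ne hne with h | h
        · left; have := uu_mono hM0.le h; linarith
        · right; have := uu_mono hM0.le h; linarith
    · have hroot : ∀ (i : Fin d), (B * PT M ε d h).eval (uu M i) = 0 ∧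
          (B * PT M ε d h).eval (uu M i + M) = 0 := by
        intro i
        have hi : (i : ℕ) ∈ range h := Finset.mem_range.2 (i.2.trans_le hdh)
        constructor
        · rw [hA]
          have : TT M ε d h (uu M i) = 0 := Finset.prod_eq_zero hi (by simp)
          rw [this, mul_zero]
        · rw [hA]
          have h1 : gg M ε d i = M := if_pos i.2
          have : TT M ε d h (uu M i + M) = 0 := Finset.prod_eq_zero hi (by simp [h1])
          rw [this, mul_zero]
      rintro (i | i | i)
      · exact hsol i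
      · exact ivt _ (by simp only [l', r', Sum.elim_inl, Sum.elim_inr]; linarith) (hroot i).1
          (hmid i i.2) hww
      · exact ivt' _ (by simp only [l', r', Sum.elim_inl, Sum.elim_inr]; linarith) (hmid i i.2)
          (hroot i).2 hww
  exact le_antisymm hup hlow

end Pool.Agent.Q85.SG
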